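import Pool.Agent.MP_7f38c2_co.H94.Param

/-! A combinatorial criterion for hamilton circles. -/

namespace Pool.Agent.MP_7f38c2_co.H94

open Classical Filter

variable {W : Type*} {H : SimpleGraph W}

lemma contOn_fr {f : ℝ → Fr H} {I : Set ℝ}
    (h1 : ∀ O : Set (W → ℝ), IsOpen O → ∀ s0 ∈ I, ∀ p : cx H, p.1 ∈ O → f s0 = Fr.pt p →
      ∃ N, IsOpen N ∧ s0 ∈ N ∧ ∀ s ∈ I, s ∈ N → ∃ q : cx H, q.1 ∈ O ∧ f s = Fr.pt q)
    (h2 : ∀ (S : Finset W) (ω : End H) (ε : ℝ), 0 < ε → ε < 1 → ∀ s0 ∈ I,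
      f s0 ∈ endNbhd H S ω ε →
      ∃ N, IsOpen N ∧ s0 ∈ N ∧ ∀ s ∈ I, s ∈ N → f s ∈ endNbhd H S ω ε) : ContinuousOn f I := by
  rw [continuousOn_iff_continuous_domRestrict]
  refine continuous_generateFrom_iff.mpr fun U hU => ?_
  have key : ∀ s0 ∈ I, f s0 ∈ U → ∃ N, IsOpen N ∧ s0 ∈ N ∧ ∀ s ∈ I, s ∈ N → f s ∈ U := by
    rcases hU with ⟨O, ⟨O', hO', rfl⟩, rfl⟩ | ⟨S, ω, ε, h3, h4, rfl⟩
    · rintro s0 hs0 ⟨p, hp, h⟩
      obtain ⟨N, h5, h6, h7⟩ := h1 O' hO' s0 hs0 p hp h.symm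
      refine ⟨N, h5, h6, fun s hs hN => ?_⟩
      obtain ⟨q, h8, h9⟩ := h7 s hs hN
      exact ⟨q, h8, h9.symm⟩
    · exact h2 S ω ε h3 h4
  refine isOpen_iff_forall_mem_open.mpr fun s0 hs0 => ?_
  obtain ⟨N, h5, h6, h7⟩ := key s0 s0.2 hs0
  exact ⟨Subtype.val ⁻¹' N, fun s hs => h7 s s.2 hs, h5.preimage continuous_subtype_val, h6⟩

variable [LinearOrder W]

lemma exists_gap_end [H.LocallyFinite] (D : Dat W)
    (h3 : ∀ (S : Finset W) x y, x ≤ y → (∀ z ∈ S, z < x ∨ y < z) → Link H S x y)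
    {s : ℝ} (hs : D.Gap s) : ∃ ω : End H, ∀ S : Finset W, ∃ a b, D.ph a ≤ s ∧ s < D.ph b ∧
      ∀ z, a ≤ z → z ≤ b → z ∈ Comp H S ω := by
  have hc : H.Preconnected := fun x y => by
    rcases le_total x y with h | h
    · exact ⟨(h3 ∅ x y h (by simp)).choose⟩
    · exact ⟨(h3 ∅ y x h (by simp)).symm.choose⟩
  let A := {x // D.ph x ≤ s}
  have : Nonempty A := ⟨⟨D.b, hs.b_le⟩⟩
  let F : Filter W := map (Subtype.val : A → W) atTop
  have hF : ∀ a, D.ph a ≤ s → ∀ᶠ z in F, a < z ∧ D.ph z ≤ s := fun a ha =>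
    (eventually_ge_atTop (⟨D.nx a, (hs.up ha).2⟩ : A)).mono fun z hz =>
      ⟨(hs.up ha).1.trans_le hz, z.2⟩
  obtain ⟨ω, hω⟩ := exists_end_of_ultrafilter hc (Ultrafilter.of F) ((Ultrafilter.of_le F).trans
    (le_cofinite_iff_eventually_ne.mpr fun v => by
      by_cases hv : D.ph v ≤ s
      · exact (hF v hv).mono fun z hz => hz.1.ne'
      · exact (hF D.b hs.b_le).mono fun z hz h => hv (h ▸ hz.2)))
  refine ⟨ω, fun S => ?_⟩
  obtain ⟨a0, ha0, ha⟩ := Finset.exists_max_image ((insert D.b S).filter fun x => D.ph x ≤ s) id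
    ⟨D.b, by simp [hs.b_le]⟩
  obtain ⟨b0, hb0, hb⟩ := Finset.exists_min_image ((insert D.t S).filter fun x => s < D.ph x) id
    ⟨D.t, by simp [hs.lt_t]⟩
  have h4 := hs.up (Finset.mem_filter.mp ha0).2
  have h5 := hs.down (Finset.mem_filter.mp hb0).2
  have h6 : ∀ z ∈ S, z < D.nx a0 ∨ D.pr b0 < z := by
    intro z hz
    rcases le_or_gt (D.ph z) s with h | h
    · exact Or.inl (lt_of_le_of_lt (ha z (by simp [hz, h])) h4.1)
    · exact Or.inr (lt_of_lt_of_le h5.1 (hb z (by simp [hz, h])))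
  obtain ⟨z0, h7, h8, h9⟩ := (Filter.Eventually.and (hω S)
    ((hF _ h4.2).filter_mono (Ultrafilter.of_le F))).exists
  have h10 := Dat.lt_of_ph h9 h5.2
  refine ⟨D.nx a0, D.pr b0, h4.2, h5.2, fun z h11 h12 => comp_link h7 ?_⟩
  rcases le_total z0 z with h | h
  · exact h3 S _ _ h fun w hw => (h6 w hw).imp (fun h => h.trans h8) (fun h => h12.trans_lt h)
  · exact (h3 S _ _ h fun w hw => (h6 w hw).imp (fun h => h.trans_le h11)
      (fun h => h10.trans h)).symm

lemma seg_support {u v x : W} {t : ℝ} (h : seg u v t x ≠ 0) : x = u ∨ x = v := by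
  by_contra hc
  rw [not_or] at hc
  simp [seg, hc.1, hc.2] at h

theorem ham_of_dat [H.LocallyFinite] (D : Dat W) (hadj : ∀ x, H.Adj x (D.nx x))
    (h3 : ∀ (S : Finset W) x y, x ≤ y → (∀ z ∈ S, z < x ∨ y < z) → Link H S x y)
    (h4 : ∀ z, ∃ S : Finset W, ∀ x y, x < z → z < y → ¬ Link H S x y) :
    HasHamiltonCircle H := by
  choose ω hω using fun s (hs : D.Gap s) => exists_gap_end D h3 hs
  have hcx : ∀ s, D.IsEdge s → D.tau s ∈ cx H := by
    rintro s ⟨x, h1, h2⟩
    exact ⟨_, _, _, Or.inr (hadj x).symm, D.cl_nonneg x s, D.cl_le_one x s, D.tau_edge h1 h2⟩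
  let f : ℝ → Fr H := fun s => if h : D.IsEdge s then Fr.pt ⟨D.tau s, hcx s h⟩
    else if h' : D.Gap s then Fr.en (ω s h') else vertexPt H D.b
  have hfe : ∀ s (h : D.IsEdge s), f s = Fr.pt ⟨D.tau s, hcx s h⟩ := fun s h => dif_pos h
  have hfg : ∀ s (h : D.Gap s), f s = Fr.en (ω s h) := fun s h => by
    simp only [f, dif_neg h.2.2, dif_pos h]
  have hcase : ∀ s ∈ Set.Icc 0 D.tot, D.IsEdge s ∨ D.Gap s := fun s hs =>
    (Classical.em _).imp_right fun h => ⟨hs.1, hs.2, h⟩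
  have hvert : ∀ v, f (D.ph v) = vertexPt H v := by
    intro v
    have h1 : D.ph v ≤ D.ph v + D.l v := by linarith [D.pos v]
    rw [hfe _ ⟨v, le_rfl, h1⟩, vertexPt]
    congr 2
    rw [D.tau_edge le_rfl h1, D.cl_zero le_rfl]
    funext x
    simp [seg]
  have hτ : ∀ v, Continuous fun s => D.tau s v := fun v =>
    (continuous_apply v).comp D.continuous_tau
  have hcont : ContinuousOn f (Set.Icc 0 D.tot) := by
    refine contOn_fr (fun O hO s0 hs0 p hp h => ?_) (fun S η ε hε hε' s0 hs0 h => ?_)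
    · rcases hcase s0 hs0 with h1 | h1
      · obtain ⟨v, hv⟩ := h1.exists_pos
        rw [hfe s0 h1] at h
        obtain rfl := Fr.pt.inj h
        exact ⟨{s | 0 < D.tau s v} ∩ D.tau ⁻¹' O, (isOpen_lt continuous_const (hτ v)).inter
          (hO.preimage D.continuous_tau), ⟨hv, hp⟩, fun s hs hN =>
            ⟨⟨D.tau s, hcx s (Dat.isEdge_of_pos hs.1 hs.2 hN.1)⟩, hN.2,
              hfe s (Dat.isEdge_of_pos hs.1 hs.2 hN.1)⟩⟩
      · rw [hfg s0 h1] at h
        cases h
    · rcases hcase s0 hs0 with h1 | h1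
      · have key : ∀ v ∈ Comp H S η, 1 - ε < D.tau s0 v → ∃ N, IsOpen N ∧ s0 ∈ N ∧
            ∀ s ∈ Set.Icc 0 D.tot, s ∈ N → f s ∈ endNbhd H S η ε := by
          intro v hv h2
          refine ⟨{s | 1 - ε < D.tau s v}, isOpen_lt continuous_const (hτ v), h2,
            fun s hs hN => ?_⟩
          rw [hfe s (Dat.isEdge_of_pos (v := v) hs.1 hs.2 (lt_trans (by linarith) hN))]
          exact pt_mem_endNbhd.mpr (Or.inr ⟨v, hv, hN⟩)
        rw [hfe s0 h1, pt_mem_endNbhd] at h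
        rcases h with h | ⟨v, hv, h⟩
        swap
        · exact key v hv h
        obtain ⟨x, h5, h6⟩ := h1
        have h7 : D.tau s0 x = 1 - D.cl x s0 := by
          rw [D.tau_edge h5 h6]
          simp [seg, (D.nx_ne x).symm]
        have h8 : D.tau s0 (D.nx x) = D.cl x s0 := by
          rw [D.tau_edge h5 h6]
          simp [seg, D.nx_ne x]
        have h9 : ∀ v, D.tau s0 v ≠ 0 → v ∈ Comp H S η := fun v hv => by
          by_contra hc
          exact hv (h v hc)
        rcases h5.lt_or_eq with h5' | h5'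
        swap
        · rw [D.cl_zero h5'.ge] at h7
          exact key x (h9 x (by rw [h7]; norm_num)) (by linarith)
        rcases h6.lt_or_eq with h6' | h6'
        swap
        · rw [D.cl_one h6'.ge] at h8
          exact key _ (h9 _ (by rw [h8]; norm_num)) (by linarith)
        have h10 : 0 < D.cl x s0 := by
          rw [D.cl_mid h5 h6]
          exact div_pos (by linarith) (D.pos x)
        have h11 : D.cl x s0 < 1 := by
          rw [D.cl_mid h5 h6]
          exact (div_lt_one (D.pos x)).mpr (by linarith)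
        refine ⟨Set.Ioo (D.ph x) (D.ph x + D.l x), isOpen_Ioo, ⟨h5', h6'⟩, fun s _ hN => ?_⟩
        rw [hfe s ⟨x, hN.1.le, hN.2.le⟩]
        refine pt_mem_endNbhd.mpr (Or.inl fun v hv => ?_)
        by_contra hc
        simp only [D.tau_edge hN.1.le hN.2.le] at hc
        rcases seg_support hc with rfl | rfl
        · exact hv (h9 _ (by linarith))
        · exact hv (h9 _ (by linarith))
      · rw [hfg s0 h1, en_mem_endNbhd] at h
        obtain ⟨a, b, ha, hb, hab⟩ := hω s0 h1 S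
        rw [comp_eq_of_tailIn h] at hab
        refine ⟨Set.Ioo (D.ph a) (D.ph b), isOpen_Ioo,
          ⟨by linarith [h1.lt ha, D.pos a], hb⟩, fun s hs hN => ?_⟩
        rcases hcase s hs with ⟨x, h5, h6⟩ | h5
        · rw [hfe s ⟨x, h5, h6⟩]
          refine pt_mem_endNbhd.mpr (Or.inl fun v hv => ?_)
          by_contra hc
          simp only [D.tau_edge h5 h6] at hc
          have h7 : a ≤ x := not_lt.mp fun h => by linarith [D.ph_le h, hN.1]
          have h8 : x < b := Dat.lt_of_ph h5 hN.2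
          have h9 := D.hnx x (h8.trans_le (D.ht b)).ne
          rcases seg_support hc with rfl | rfl
          · exact hv (hab _ (h7.trans h9.le) (h9.ge_of_gt h8))
          · exact hv (hab _ h7 h8.le)
        · rw [hfg s h5, en_mem_endNbhd]
          obtain ⟨a', b', ha', hb', hab'⟩ := hω s h5 S
          have h6 : max a a' ∈ Comp H S η := hab _ (le_max_left _ _)
            (max_le (Dat.lt_of_ph ha hb).le (Dat.lt_of_ph ha' hN.2).le)
          have h7 : max a a' ∈ Comp H S (ω s h5) := hab' _ (le_max_right _ _)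
            (max_le (Dat.lt_of_ph hN.1.le hb').le (Dat.lt_of_ph ha' hb').le)
          rw [comp_eq h6 h7]
          exact tailIn_comp _ _
  have hgap : ∀ s s' (h : D.Gap s) (h' : D.Gap s'), s < s' → ω s h ≠ ω s' h' := by
    intro s s' h h' hlt he
    obtain ⟨z, h1, h2⟩ := h.exists_between h' hlt
    obtain ⟨S, hS⟩ := h4 z
    obtain ⟨a, b, ha, hb, hab⟩ := hω s h S
    obtain ⟨a', b', ha', hb', hab'⟩ := hω s' h' S
    exact hS a b' (Dat.lt_of_ph ha h1) (Dat.lt_of_ph h2 hb') (link_of_comp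
      (hab a le_rfl (Dat.lt_of_ph ha hb).le) (he ▸ hab' b' (Dat.lt_of_ph ha' hb').le le_rfl))
  have hinj : Set.InjOn f (Set.Ico 0 D.tot) := by
    intro s hs s' hs' he
    rcases hcase s ⟨hs.1, hs.2.le⟩ with h | h <;> rcases hcase s' ⟨hs'.1, hs'.2.le⟩ with h' | h'
    · rw [hfe s h, hfe s' h'] at he
      exact Dat.tau_inj h hs.2 h' hs'.2 (congrArg Subtype.val (Fr.pt.inj he))
    · rw [hfe s h, hfg s' h'] at he
      cases he
    · rw [hfg s h, hfe s' h'] at he
      cases he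
    · rw [hfg s h, hfg s' h'] at he
      by_contra hne
      rcases lt_or_gt_of_ne hne with h1 | h1
      · exact hgap s s' h h' h1 (Fr.en.inj he)
      · exact hgap s' s h' h h1 (Fr.en.inj he).symm
  have hend : f 0 = f D.tot := by
    have h1 : D.ph D.t ≤ D.tot := (D.ph_lt_tot _).le
    rw [← D.ph_b, hvert, hfe _ ⟨D.t, h1, D.ph_t.ge⟩, vertexPt]
    congr 2
    rw [D.tau_edge h1 D.ph_t.ge, D.cl_one D.ph_t.le, D.hnt]
    funext x
    simp [seg]
  have : Fact (0 < D.tot) := ⟨D.tot_pos⟩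
  let g : AddCircle D.tot → Fr H := AddCircle.liftIco D.tot 0 f
  have hg : Continuous g := AddCircle.liftIco_zero_continuous hend hcont
  have hgi : Function.Injective g := by
    intro x y hxy
    obtain ⟨s, hs, rfl⟩ := AddCircle.eq_coe_Ico x
    obtain ⟨s', hs', rfl⟩ := AddCircle.eq_coe_Ico y
    simp only [g, AddCircle.liftIco_zero_coe_apply hs, AddCircle.liftIco_zero_coe_apply hs'] at hxy
    rw [hinj hs hs' hxy]
  refine ⟨Set.range g, ⟨(hg.isClosedEmbedding hgi).isEmbedding.toHomeomorph.symm.trans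
    (AddCircle.homeomorphCircle D.tot_pos.ne')⟩, fun v => ⟨(D.ph v : ℝ), ?_⟩⟩
  simp only [g]
  rw [AddCircle.liftIco_zero_coe_apply ⟨D.ph_nonneg v, D.ph_lt_tot v⟩, hvert]

theorem ham_of_order [H.LocallyFinite] [Countable W] [Infinite W] (b t : W)
    (hb : ∀ x, b ≤ x) (ht : ∀ x, x ≤ t) (hs : ∀ x, x ≠ t → ∃ y, x ⋖ y)
    (hp : ∀ y, y ≠ b → ∃ x, x ⋖ y) (hadj : ∀ x y, x ⋖ y → H.Adj x y) (htb : H.Adj t b)
    (h3 : ∀ (S : Finset W) x y, x ≤ y → (∀ z ∈ S, z < x ∨ y < z) → Link H S x y)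
    (h4 : ∀ z, ∃ S : Finset W, ∀ x y, x < z → z < y → ¬ Link H S x y) :
    HasHamiltonCircle H := by
  choose! nx hnx using hs
  choose! pr hpr using hp
  obtain ⟨e, he⟩ := Countable.exists_injective_nat W
  refine ham_of_dat
    { b := b, t := t, nx := fun x => if x = t then b else nx x
      pr := fun y => if y = b then t else pr y
      l := fun x => (1 / 2 : ℝ) ^ e x, hb := hb, ht := ht
      hnx := fun x hx => by simpa [hx] using hnx x hx
      hnt := by simp
      hpr := fun y hy => by simpa [hy] using hpr y hy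
      hpb := by simp
      pos := fun x => by positivity
      sum := summable_geometric_two.comp_injective he
      inf := inferInstance } (fun x => ?_) h3 h4
  by_cases hx : x = t
  · simpa [hx] using htb
  · simpa [hx] using hadj _ _ (hnx x hx)

end Pool.Agent.MP_7f38c2_co.H94
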