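import Pool.Agent.MP_7f38c2_co.H94.Trail

/-! An Euler tour that is injective at ends, as a linear order on the edge set. -/

namespace Pool.Agent.MP_7f38c2_co.H10

open Classical

namespace MG

variable {V E : Type*}

def Stt (G : MG V E) (v0 : V) (L : List E) : Prop :=
  G.Wk v0 L v0 ∧ L.Nodup ∧ ∀ e, G.Tch e v0 → e ∈ L

def Hit (G : MG V E) (L : List E) (w x : E) : Prop :=
  ∃ u, G.Tch w u ∧ G.Conn {e | e ∉ L} (G.s x) u

def Bef (G : MG V E) (L : List E) (z x : E) : Prop := ∀ w, [w, z].Sublist L → ¬ G.Hit L w x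

def Ins (G : MG V E) (v0 : V) (L L' : List E) : Prop :=
  ∃ P B W b, L = P ++ B ∧ L' = P ++ (W ++ B) ∧ P ≠ [] ∧ B ≠ [] ∧ G.Wk v0 P b ∧ G.Wk b B v0 ∧
    (∃ w, w ∉ L ∧ G.Tch w b) ∧
    (∀ z ∈ L, ∀ x ∈ W, [z, x].Sublist L' ↔ G.Bef L z x) ∧
    (∀ z ∈ L, ∀ x, x ∉ L' → (G.Bef L' z x ↔ G.Bef L z x))

lemma ec_compl {G : MG V E} (hev : G.EC Set.univ) {v0 : V} {L : List E} (h : G.Wk v0 L v0)
    (hL : L.Nodup) : G.EC {e | e ∉ L} := by
  have := hev.sdiff (N := {e | e ∈ L}) L.finite_toSet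
    (fun v => by rw [h.bd_eq hL, z2_add_self]) (Set.subset_univ _)
  rwa [← Set.compl_eq_univ_sdiff] at this

lemma exists_hit {G : MG V E} {R : Set E} {a c : V} (h : G.Conn Set.univ a c) {x : V}
    (ha : G.Conn R x a) (hc : ¬ G.Conn R x c) : ∃ g, g ∉ R ∧ ∃ u, G.Conn R x u ∧ G.Tch g u := by
  induction h with
  | refl => exact absurd ha hc
  | @tail b c _ hbc ih =>
    by_cases hb : G.Conn R x b
    · obtain ⟨g, -, hg⟩ := hbc
      exact ⟨g, fun h => hc (hb.trans (Conn.edge h hg)), b, hb, hg.tch⟩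
    · exact ih hb

lemma Stt.step {G : MG V E} (hc : ∀ a b, G.Conn Set.univ a b) (hev : G.EC Set.univ) {v0 : V}
    {L : List E} (h : G.Stt v0 L) {e : E} (he : e ∉ L) :
    ∃ L', G.Stt v0 L' ∧ e ∈ L' ∧ G.Ins v0 L L' := by
  obtain ⟨h1, h2, h3⟩ := h
  set R : Set E := {e | e ∉ L} with hR
  have hv0 : ¬ G.Conn R (G.s e) v0 := by
    intro h
    rcases Relation.ReflTransGen.cases_tail h with h | ⟨c, -, g, hg, h⟩
    · exact he (h3 e (Or.inl h.symm))
    · exact hg (h3 g h.symm.tch)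
  obtain ⟨A, g, B, b, hL, hb, h4, h5, h6⟩ := h1.first (K := {u | G.Conn R (G.s e) u}) hv0 (by
    obtain ⟨g, hg, u, hu, ht⟩ := exists_hit (hc (G.s e) v0) (Conn.refl G R _) hv0
    exact ⟨g, not_not.mp hg, u, hu, ht⟩)
  obtain ⟨W, h7, h8, h9, h10⟩ := (ec_compl hev h1 h2).trail b (Set.finite_singleton e)
    (by simpa using he) (by simpa using Conn.symm hb)
  have heW := h10 e rfl
  have hB : B ≠ [] := by
    rintro rfl
    cases h5
    exact hv0 hb
  obtain ⟨w0, hw0, hw0'⟩ : ∃ w ∈ W, G.Tch w b := by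
    cases W with
    | nil => simp at heW
    | cons w W => exact ⟨w, by simp, h7.tch_cons⟩
  have hnd := List.nodup_append.mp (hL ▸ h2)
  have hmem : ∀ z, z ∈ L ↔ z ∈ A ++ [g] ∨ z ∈ B := fun z => by rw [hL, List.mem_append]
  have hWL : ∀ w ∈ W, w ∉ L := fun w hw => (h9 w hw).1
  have hsub : {f | f ∉ A ++ [g] ++ (W ++ B)} ⊆ R := fun f hf hf' => hf (by
    rw [hmem] at hf'
    simp only [List.mem_append] at hf' ⊢
    tauto)
  have hA : ∀ w z, [w, z].Sublist (A ++ [g]) → w ∈ A := fun w z h => by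
    rcases bf_append.mp h with h | h | h
    · exact bf_left h
    · simpa using h.length_le
    · exact h.1
  have hbef : ∀ z ∈ L, ∀ x, G.Conn R (G.s e) (G.s x) → (G.Bef L z x ↔ z ∉ B) := by
    intro z hz x hx
    refine ⟨fun h hzB => h g ?_ ⟨b, h4.tch_last, hx.symm.trans hb⟩, fun hzB w hw => ?_⟩
    · rw [hL]
      exact bf_append.mpr (Or.inr (Or.inr ⟨by simp, hzB⟩))
    · rintro ⟨u, hu, hu'⟩
      rw [hL] at hw
      rcases bf_append.mp hw with hw | hw | hw
      · exact h6 w (hA w z hw) u (hx.trans hu') hu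
      · exact hzB (bf_right hw)
      · exact hzB hw.2
  refine ⟨A ++ [g] ++ (W ++ B), ⟨h4.append (h7.append h5), ?_, fun f hf => ?_⟩, by simp [heW],
    A ++ [g], B, W, b, hL, rfl, by simp, hB, h4, h5, ⟨w0, hWL w0 hw0, hw0'⟩,
    fun z hz x hx => ?_, fun z hz x hx => ?_⟩
  · refine List.nodup_append.mpr ⟨hnd.1, List.nodup_append.mpr ⟨h8, hnd.2.1, ?_⟩, ?_⟩
    · rintro a ha _ hb rfl
      exact hWL a ha ((hmem a).mpr (Or.inr hb))
    · rintro a ha _ hb rfl
      rcases List.mem_append.mp hb with hb | hb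
      · exact hWL a hb ((hmem a).mpr (Or.inl ha))
      · exact hnd.2.2 a ha a hb rfl
  · by_contra h
    exact hsub h (h3 f hf)
  · rw [hbef z hz x (Conn.trans hb (h9 x hx).2), bf_append, bf_append (A := W)]
    refine ⟨?_, fun h => Or.inr (Or.inr ⟨((hmem z).mp hz).resolve_right h, by simp [hx]⟩)⟩
    rintro (h | (h | h | h) | h) hzB
    · exact hWL x hx ((hmem x).mpr (Or.inl (bf_right h)))
    · exact hWL z (bf_left h) hz
    · exact hWL x hx ((hmem x).mpr (Or.inr (bf_right h)))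
    · exact hWL z h.1 hz
    · exact hnd.2.2 z h.1 z hzB rfl
  · have hcase : ∀ w, [w, z].Sublist (A ++ [g] ++ (W ++ B)) →
        [w, z].Sublist L ∧ (z ∉ B → w ∈ A) ∨ (w ∈ W ∧ z ∈ B) := by
      intro w h
      rw [bf_append, bf_append (A := W)] at h
      rw [hL, bf_append]
      rcases h with h | (h | h | h) | h
      · exact Or.inl ⟨Or.inl h, fun _ => hA w z h⟩
      · exact absurd hz (hWL z (bf_right h))
      · exact Or.inl ⟨Or.inr (Or.inl h), fun h' => absurd (bf_right h) h'⟩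
      · exact Or.inr h
      · have h' : z ∈ B := (List.mem_append.mp h.2).resolve_left fun h' => hWL z h' hz
        exact Or.inl ⟨Or.inr (Or.inr ⟨h.1, h'⟩), fun h'' => absurd h' h''⟩
    by_cases hx' : G.Conn R (G.s e) (G.s x)
    · rw [hbef z hz x hx']
      refine ⟨fun h hzB => ?_, fun hzB w hw => ?_⟩
      · have key : ∀ y, G.Conn R b y → ∃ w ∈ W, ∃ u, G.Tch w u ∧
            G.Conn {f | f ∉ A ++ [g] ++ (W ++ B)} y u := by
          intro y hy
          induction hy with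
          | refl => exact ⟨w0, hw0, b, hw0', Conn.refl _ _ _⟩
          | @tail y y' _ hyy ih =>
            obtain ⟨f, hf, hj⟩ := hyy
            by_cases hfW : f ∈ W
            · exact ⟨f, hfW, y', hj.symm.tch, Conn.refl _ _ _⟩
            · obtain ⟨w, hw, u, h11, h12⟩ := ih
              refine ⟨w, hw, u, h11, (Conn.edge (e := f) (N := {f | f ∉ A ++ [g] ++ (W ++ B)})
                (fun h13 => hf ?_) hj.symm).trans h12⟩
              rw [hmem]
              simp only [List.mem_append] at h13 ⊢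
              tauto
        obtain ⟨w, hw, hu⟩ := key _ ((Conn.symm hb).trans hx')
        exact h w (bf_append.mpr (Or.inr (Or.inl (bf_append.mpr (Or.inr (Or.inr ⟨hw, hzB⟩))))))
          hu
      · rintro ⟨u, hu, hu'⟩
        rcases hcase w hw with h | h
        · exact h6 w (h.2 hzB) u (hx'.trans (hu'.mono hsub)) hu
        · exact hzB h.2
    · have hWx : ∀ w ∈ W, ∀ u, G.Tch w u → ¬ G.Conn R (G.s x) u := fun w hw u hu h =>
        hx' ((Conn.trans hb (h9 w hw).2).trans ((hu.conn (h9 w hw).1).trans h.symm))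
      have key : ∀ y, G.Conn R (G.s x) y →
          G.Conn {f | f ∉ A ++ [g] ++ (W ++ B)} (G.s x) y := by
        intro y hy
        induction hy with
        | refl => exact Conn.refl _ _ _
        | @tail y y' hy hyy ih =>
          obtain ⟨f, hf, hj⟩ := hyy
          refine ih.trans (Conn.edge (fun h13 => hf ?_) hj)
          have := fun h => hWx f h y hj.tch hy
          rw [hmem]
          simp only [List.mem_append] at h13 ⊢
          tauto
      refine ⟨fun h w hw ⟨u, hu, hu'⟩ => h w ?_ ⟨u, hu, key u hu'⟩,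
        fun h w hw ⟨u, hu, hu'⟩ => ?_⟩
      · refine hw.trans ?_
        rw [hL]
        exact (List.sublist_append_right W B).append_left _
      · rcases hcase w hw with h' | h'
        · exact h w h'.1 ⟨u, hu, hu'.mono hsub⟩
        · exact hWx w h'.1 u hu (hu'.mono hsub)

lemma Ins.sublist {G : MG V E} {v0 : V} {L L' : List E} (h : G.Ins v0 L L') : L.Sublist L' := by
  obtain ⟨P, B, W, b, rfl, rfl, -⟩ := h
  exact (List.sublist_append_right W B).append_left _

lemma Ins.adj {G : MG V E} {v0 : V} {L L' : List E} (h : G.Ins v0 L L') {x y : E}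
    (hs : (∀ u w, G.Tch x u → G.Tch w u → w ∈ L) ∨ (∀ u w, G.Tch y u → G.Tch w u → w ∈ L))
    (ha : ∃ P Q, L = P ++ x :: y :: Q) : ∃ P Q, L' = P ++ x :: y :: Q := by
  obtain ⟨P, B, W, b, rfl, rfl, -, -, h1, h2, ⟨w, h3, h4⟩, -⟩ := h
  obtain ⟨P1, Q, ha⟩ := ha
  refine (adj_insert W ha).resolve_right ?_
  rintro ⟨rfl, rfl⟩
  rcases hs with hs | hs
  · exact h3 (hs b w h1.tch_last h4)
  · exact h3 (hs b w h2.tch_cons h4)

lemma Ins.head {G : MG V E} {v0 : V} {L L' : List E} (h : G.Ins v0 L L') {x : E}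
    (ha : ∃ Q, L = x :: Q) : ∃ Q, L' = x :: Q := by
  obtain ⟨P, B, W, b, rfl, rfl, h, -⟩ := h
  obtain ⟨Q, ha⟩ := ha
  cases P with
  | nil => exact absurd rfl h
  | cons a P => exact ⟨_, by rw [(List.cons.inj ha).1]; rfl⟩

lemma Ins.last {G : MG V E} {v0 : V} {L L' : List E} (h : G.Ins v0 L L') {x : E}
    (ha : ∃ Q, L = Q ++ [x]) : ∃ Q, L' = Q ++ [x] := by
  obtain ⟨P, B, W, b, rfl, rfl, -, h, -⟩ := h
  obtain ⟨Q, ha⟩ := ha
  obtain ⟨B, a, rfl⟩ := (List.eq_nil_or_concat' B).resolve_left h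
  rw [← List.append_assoc] at ha
  obtain rfl : a = x := by simpa using (List.append_inj' ha rfl).2
  exact ⟨P ++ (W ++ B), by simp⟩

structure IsTour [LinearOrder E] (G : MG V E) (b t : E) : Prop where
  hb : ∀ x, b ≤ x
  ht : ∀ x, x ≤ t
  hs : ∀ x, x ≠ t → ∃ y, x ⋖ y
  hp : ∀ y, y ≠ b → ∃ x, x ⋖ y
  htb : G.Touch t b
  h3 : ∀ x y, x ≤ y → Relation.ReflTransGen (fun a c => G.Touch a c ∧ x ≤ c ∧ c ≤ y) x y
  h4 : ∀ z, ∃ L : List E, ∀ x y, x < z → z < y → x ∉ L → y ∉ L →
    ¬ G.Conn {e | e ∉ L} (G.s x) (G.s y)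

lemma rtg_of_chain {α : Type*} {r : α → α → Prop} {p : α → Prop} {x y : α} {M : List α}
    (h : (x :: M ++ [y]).IsChain r) (hp : ∀ c ∈ M ++ [y], p c) :
    Relation.ReflTransGen (fun a c => r a c ∧ p c) x y := by
  induction M generalizing x with
  | nil => exact Relation.ReflTransGen.single ⟨by simpa using h, hp y (by simp)⟩
  | cons m M ih =>
    rw [List.cons_append, List.cons_append, List.isChain_cons_cons] at h
    exact Relation.ReflTransGen.head ⟨h.1, hp m (by simp)⟩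
      (ih h.2 fun c hc => hp c (List.mem_cons_of_mem _ hc))

theorem exists_tour (G : MG V E) [Countable E] [Nonempty E] (hc : ∀ a b, G.Conn Set.univ a b)
    (hev : G.EC Set.univ) : ∃ (o : LinearOrder E) (b t : E), @IsTour V E o G b t := by
  obtain ⟨ee, hee⟩ := exists_surjective_nat E
  set v0 := G.s (ee 0) with hv0
  obtain ⟨L0, h1, h2, -, h3⟩ := hev.trail v0 (G.lf v0) (Set.subset_univ _) fun f _ => hc _ _
  have hstep : ∀ (p : {L // G.Stt v0 L}) (e : E), ∃ q : {L // G.Stt v0 L},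
      e ∈ q.1 ∧ (q.1 = p.1 ∨ G.Ins v0 p.1 q.1) := by
    intro p e
    by_cases he : e ∈ p.1
    · exact ⟨p, he, Or.inl rfl⟩
    · obtain ⟨L', h4, h5, h6⟩ := p.2.step hc hev he
      exact ⟨⟨L', h4⟩, h5, Or.inr h6⟩
  choose nx hn1 hn2 using hstep
  let st : ℕ → {L // G.Stt v0 L} := fun n => Nat.rec ⟨L0, h1, h2, h3⟩ (fun n p => nx p (ee n)) n
  let L : ℕ → List E := fun n => (st n).1
  have hL0 : L 0 = L0 := rfl
  have hst : ∀ n, G.Stt v0 (L n) := fun n => (st n).2
  have hmem : ∀ n, ee n ∈ L (n + 1) := fun n => hn1 (st n) (ee n)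
  have hins : ∀ n, L (n + 1) = L n ∨ G.Ins v0 (L n) (L (n + 1)) := fun n => hn2 (st n) (ee n)
  clear_value L
  have hmono : ∀ n m, n ≤ m → (L n).Sublist (L m) := by
    intro n m h
    induction h with
    | refl => exact List.Sublist.refl _
    | @step m _ ih => exact ih.trans ((hins m).elim (fun h => h ▸ List.Sublist.refl _) Ins.sublist)
  have hev1 : ∀ x, ∀ᶠ n in Filter.atTop, x ∈ L n := fun x => by
    obtain ⟨k, rfl⟩ := hee x
    exact (Filter.eventually_ge_atTop (k + 1)).mono fun n hn => (hmono _ _ hn).subset (hmem k)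
  have hev2 : ∀ x, ∀ᶠ n in Filter.atTop, ∀ u w, G.Tch x u → G.Tch w u → w ∈ L n := fun x => by
    refine ((Filter.eventually_all_finite ((G.lf (G.s x)).union (G.lf (G.t x)))).mpr
      fun w _ => hev1 w).mono fun n hn u w hu hw => hn w ?_
    rcases hu with rfl | rfl
    · exact Or.inl hw
    · exact Or.inr hw
  let lt : E → E → Prop := fun x y => ∃ n, [x, y].Sublist (L n)
  have hlt : ∀ {x y}, lt x y → ∀ᶠ n in Filter.atTop, [x, y].Sublist (L n) := fun ⟨k, hk⟩ =>
    (Filter.eventually_ge_atTop k).mono fun n hn => hk.trans (hmono _ _ hn)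
  have htri : ∀ x y, lt x y ∨ x = y ∨ lt y x := fun x y => by
    obtain ⟨n, h4, h5⟩ := ((hev1 x).and (hev1 y)).exists
    exact (bf_total h4 h5).imp (fun h => ⟨n, h⟩) (Or.imp_right fun h => ⟨n, h⟩)
  have : IsStrictTotalOrder E lt :=
    { trichotomous := fun x y h h' => by
        rcases htri x y with h4 | h4 | h4
        · exact absurd h4 h
        · exact h4
        · exact absurd h4 h'
      irrefl := fun x ⟨n, h⟩ => bf_irrefl (hst n).2.1 h
      trans := fun x y z h h' => by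
        obtain ⟨n, h4, h5⟩ := ((hlt h).and (hlt h')).exists
        exact ⟨n, bf_trans (hst n).2.1 h4 h5⟩ }
  let o : LinearOrder E := linearOrderOfSTO lt
  have hlt' : ∀ x y : E, x < y ↔ lt x y := fun _ _ => Iff.rfl
  have hne : L0 ≠ [] := List.ne_nil_of_mem (h3 (ee 0) (Or.inl rfl))
  obtain ⟨b, Q0, hb0⟩ := List.exists_cons_of_ne_nil hne
  obtain ⟨Q1, t, ht0⟩ := (List.eq_nil_or_concat' L0).resolve_left hne
  have hb : ∀ n, ∃ Q, L n = b :: Q := fun n => by
    induction n with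
    | zero => exact ⟨Q0, hL0.trans hb0⟩
    | succ n ih => exact (hins n).elim (fun h => h ▸ ih) fun h => h.head ih
  have ht : ∀ n, ∃ Q, L n = Q ++ [t] := fun n => by
    induction n with
    | zero => exact ⟨Q1, hL0.trans ht0⟩
    | succ n ih => exact (hins n).elim (fun h => h ▸ ih) fun h => h.last ih
  have hcov : ∀ n x y, ((∀ u w, G.Tch x u → G.Tch w u → w ∈ L n) ∨
      (∀ u w, G.Tch y u → G.Tch w u → w ∈ L n)) → (∃ P Q, L n = P ++ x :: y :: Q) → x ⋖ y := by
    intro n x y h4 h5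
    have h6 : ∀ m, n ≤ m → ∃ P Q, L m = P ++ x :: y :: Q := by
      intro m hm
      induction hm with
      | refl => exact h5
      | @step m hm ih =>
        refine (hins m).elim (fun h => h ▸ ih) fun h => h.adj ?_ ih
        exact h4.imp (fun h u w h7 h8 => (hmono _ _ hm).subset (h u w h7 h8))
          (fun h u w h7 h8 => (hmono _ _ hm).subset (h u w h7 h8))
    obtain ⟨P, Q, h5⟩ := h5
    refine ⟨⟨n, h5 ▸ bf_append.mpr (Or.inr (Or.inl (bf_cons.mpr (Or.inl ⟨rfl, by simp⟩))))⟩,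
      fun z h7 h8 => ?_⟩
    obtain ⟨m, h9, h10, h11⟩ := ((hlt h7).and ((hlt h8).and (Filter.eventually_ge_atTop n))).exists
    obtain ⟨P', Q', h12⟩ := h6 m h11
    have h13 := (hst m).2.1
    rw [h12] at h9 h10 h13
    exact not_between h13 h9 h10
  have hbef : ∀ n z x, z ∈ L n → x ∉ L n → (z < x ↔ G.Bef (L n) z x) := by
    intro n z x hz hx
    have h4 : ∀ m, n ≤ m → (x ∉ L m → (G.Bef (L m) z x ↔ G.Bef (L n) z x)) ∧
        (x ∈ L m → ([z, x].Sublist (L m) ↔ G.Bef (L n) z x)) := by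
      intro m hm
      induction hm with
      | refl => exact ⟨fun _ => Iff.rfl, fun h => absurd h hx⟩
      | @step m hm ih =>
        have hzm := (hmono _ _ hm).subset hz
        rcases hins m with h | h
        · exact h ▸ ih
        have hsl := h.sublist
        obtain ⟨P, B, W, b, h5, h6, -, -, -, -, -, h7, h8⟩ := h
        refine ⟨fun h => (h8 z hzm x h).trans (ih.1 fun h' => h (hsl.subset h')), fun h => ?_⟩
        by_cases hxm : x ∈ L m
        · rw [← ih.2 hxm]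
          refine ⟨fun h9 => ?_, fun h9 => h9.trans hsl⟩
          rcases bf_total hzm hxm with h10 | rfl | h10
          · exact h10
          · exact absurd hz hx
          · exact absurd (bf_trans (hst _).2.1 h9 (h10.trans hsl)) (bf_irrefl (hst _).2.1)
        · rw [← ih.1 hxm]
          refine h7 z hzm x ?_
          rw [show L m.succ = L (m + 1) from rfl, h6] at h
          rw [h5] at hxm
          simp only [List.mem_append] at h hxm
          tauto
    refine ⟨fun h => ?_, fun h => ?_⟩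
    · obtain ⟨m, h5, h6⟩ := ((hlt h).and (Filter.eventually_ge_atTop n)).exists
      exact ((h4 m h6).2 (bf_right h5)).mp h5
    · obtain ⟨m, h5, h6⟩ := ((hev1 x).and (Filter.eventually_ge_atTop n)).exists
      exact ⟨m, ((h4 m h6).2 h5).mpr h⟩
  refine ⟨o, b, t, fun x => ?_, fun x => ?_, fun x hx => ?_, fun y hy => ?_,
    ⟨v0, (ht0 ▸ h1).tch_last, (hb0 ▸ h1).tch_cons⟩, fun x y hxy => ?_, fun z => ?_⟩
  · obtain ⟨n, h4⟩ := (hev1 x).exists
    obtain ⟨Q, hQ⟩ := hb n
    rcases List.mem_cons.mp (hQ ▸ h4) with rfl | h5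
    · exact le_rfl
    · exact le_of_lt ⟨n, hQ ▸ bf_cons.mpr (Or.inl ⟨rfl, h5⟩)⟩
  · obtain ⟨n, h4⟩ := (hev1 x).exists
    obtain ⟨Q, hQ⟩ := ht n
    rcases List.mem_append.mp (hQ ▸ h4) with h5 | h5
    · exact le_of_lt ⟨n, hQ ▸ bf_append.mpr (Or.inr (Or.inr ⟨h5, by simp⟩))⟩
    · exact le_of_eq (by simpa using h5)
  · obtain ⟨n, h4, h5⟩ := ((hev1 x).and (hev2 x)).exists
    obtain ⟨P, Q, h6⟩ := List.append_of_mem h4
    rcases Q with _ | ⟨y, Q⟩
    · obtain ⟨Q, hQ⟩ := ht n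
      exact absurd (by simpa using (List.append_inj' (h6.symm.trans hQ) rfl).2) hx
    · exact ⟨y, hcov n x y (Or.inl h5) ⟨P, Q, h6⟩⟩
  · obtain ⟨n, h4, h5⟩ := ((hev1 y).and (hev2 y)).exists
    obtain ⟨P, Q, h6⟩ := List.append_of_mem h4
    rcases List.eq_nil_or_concat' P with rfl | ⟨P, x, rfl⟩
    · obtain ⟨Q', hQ⟩ := hb n
      exact absurd (List.cons.inj (h6.symm.trans hQ)).1 hy
    · exact ⟨x, hcov n x y (Or.inr h5) ⟨P, Q, by simpa using h6⟩⟩
  · rcases hxy.lt_or_eq with ⟨n, h⟩ | rfl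
    swap
    · exact Relation.ReflTransGen.refl
    obtain ⟨P, M, Q, h4⟩ := bf_split h
    have h5 := (hst n).1.chain
    have h6 : (x :: M ++ [y]).Sublist (L n) := by
      rw [h4]
      exact (List.sublist_append_right _ _).trans (List.sublist_append_left _ _)
    rw [h4] at h5
    refine rtg_of_chain h5.left_of_append.right_of_append fun c hc => ⟨le_of_lt ⟨n, ?_⟩, ?_⟩
    · exact (bf_cons.mpr (Or.inl ⟨rfl, hc⟩)).trans h6
    · rcases List.mem_append.mp hc with hc | hc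
      · exact le_of_lt ⟨n, (bf_append.mpr (Or.inr (Or.inr
          ⟨List.mem_cons_of_mem _ hc, by simp⟩))).trans h6⟩
      · exact le_of_eq (by simpa using hc)
  · obtain ⟨n, h4⟩ := (hev1 z).exists
    refine ⟨L n, fun x y h5 h6 hx hy h7 => ?_⟩
    refine absurd h5 (not_lt.mpr (le_of_lt ((hbef n z x h4 hx).mpr fun w hw ⟨u, hu, hu'⟩ => ?_)))
    exact (hbef n z y h4 hy).mp h6 w hw ⟨u, hu, h7.symm.trans hu'⟩

end MG

end Pool.Agent.MP_7f38c2_co.H10
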