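import Pool.Agent.MP_7f38c2_co.H94.Regions
import Pool.Agent.MP_7f38c2_co.H94.Tour
import Pool.Agent.MP_7f38c2_co.H94.Circle

/-! Hamilton circles in line graphs of 4-edge-connected graphs with countably many ends. -/

namespace Pool.Agent.MP_7f38c2_co.H94

open Classical H10

variable {V : Type*} (G : SimpleGraph V) [G.LocallyFinite]

lemma ofSG_adj (e : G.edgeSet) : G.Adj ((ofSG G).s e) ((ofSG G).t e) := by
  have := e.2
  rwa [← ofSG_mk] at this

lemma link_mem {U : Set V} {A : Finset V} (hA : (ofSG G).cut U ⊆ (ofSG G).In A) {u v : V}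
    (h : Link G A u v) (hu : u ∈ U) : v ∈ U := by
  refine h.ind (P := (· ∈ U)) (fun a b hab ha _ haU => ?_) hu
  by_contra hb
  have h2 := hA (mem_cut_of_adj G hab haU hb)
  rcases ofSG_joins G hab with ⟨h3, -⟩ | ⟨-, h3⟩
  · exact ha (h3 ▸ h2.1)
  · exact ha (h3 ▸ h2.2)

lemma exists_endSys (hc : G.Preconnected) [Countable (End G)] :
    Nonempty ((ofSG G).EndSys (End G)) := by
  obtain ⟨idx, hidx⟩ := Countable.exists_injective_nat (End G)
  choose r hr using End.exists_ray (H := G)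
  have h1 : ∀ ω U, U ∈ Filter.map (r ω).toFun Filter.atTop ↔ ∃ N, ∀ n, N ≤ n → (r ω).toFun n ∈ U :=
    fun ω U => Filter.eventually_atTop
  have h2 : ∀ ω S, Comp G S ω ∈ Filter.map (r ω).toFun Filter.atTop := fun ω S =>
    (h1 ω _).mpr (tailIn_comp S ω _ (hr ω))
  refine ⟨⟨fun ω => Filter.map (r ω).toFun Filter.atTop, idx, hidx, fun ω => inferInstance,
    fun ω U hU => ?_, fun ω v => ?_, fun ω ω' h => ?_, fun 𝒰 h => ?_⟩⟩
  · obtain ⟨A, hA⟩ := (ofSG G).exists_ends hU
    obtain ⟨v, hv⟩ := comp_nonempty A ω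
    by_cases h : v ∈ U
    · exact Or.inl (Filter.mem_of_superset (h2 ω A) fun w hw => link_mem G hA (link_of_comp hv hw) h)
    · exact Or.inr (Filter.mem_of_superset (h2 ω A) fun w hw h' =>
        h (link_mem G hA (link_of_comp hw hv) h'))
  · exact Filter.mem_of_superset (h2 ω {v}) fun w hw h =>
      not_mem_of_comp hw (Finset.mem_singleton.mpr h)
  · obtain ⟨S, hS⟩ := exists_sep h
    refine ⟨Comp G S ω, ((ofSG G).inc_finite S.finite_toSet).subset fun e he => ?_, h2 ω S,
      Filter.mem_of_superset (h2 ω' S) fun w hw h => Set.disjoint_left.mp hS h hw⟩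
    by_contra hc
    simp only [Set.mem_ofPred_eq, not_or] at hc
    have h3 := Link.of_adj (ofSG_adj G e) hc.1 hc.2
    exact he ⟨fun h => comp_link h h3, fun h => comp_link h h3.symm⟩
  · obtain ⟨ω, hω⟩ := exists_end_of_ultrafilter hc 𝒰 h
    refine ⟨ω, fun U hU h3 => ?_⟩
    obtain ⟨A, hA⟩ := (ofSG G).exists_ends hU
    obtain ⟨v, h4, h5⟩ := Filter.nonempty_of_mem (Filter.inter_mem h3 (h2 ω A))
    exact Filter.mem_of_superset (hω A) fun w hw => link_mem G hA (link_of_comp h5 hw) h4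

lemma four_le_cut (h4 : G.IsEdgeConnected 4) (U : Set V) (hf : ((ofSG G).cut U).Finite)
    (hU : U.Nonempty) (hU' : Uᶜ.Nonempty) : 4 ≤ ((ofSG G).cut U).ncard := by
  obtain ⟨x, hx⟩ := hU
  obtain ⟨y, hy⟩ := hU'
  by_contra hlt
  have h1 := h4 x y (s := Subtype.val '' (ofSG G).cut U) (by
    rw [Subtype.val_injective.encard_image, ← hf.cast_ncard_eq]
    exact_mod_cast not_le.mp hlt)
  rw [SimpleGraph.reachable_iff_reflTransGen] at h1
  refine hy ?_
  clear hy
  induction h1 with
  | refl => exact hx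
  | @tail b c _ hbc ih =>
    by_contra hc
    rw [SimpleGraph.deleteEdges_adj] at hbc
    exact hbc.2 ⟨_, mem_cut_of_adj G hbc.1 ih hc, rfl⟩

lemma line_adj_iff (e f : G.edgeSet) : G.lineGraph.Adj e f ↔ e ≠ f ∧ (ofSG G).Touch e f := by
  rw [SimpleGraph.lineGraph_adj_iff_exists]
  refine and_congr_right fun _ => exists_congr fun v => ?_
  rw [← ofSG_mk, ← ofSG_mk G f, Sym2.mem_iff, Sym2.mem_iff]
  simp only [eq_comm]

lemma touch_loopify {E : Type*} {M : MG V E} {H : Set E} {e f : E} (h : (M.loopify H).Touch e f) :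
    M.Touch e f := by
  obtain ⟨v, h5, h6⟩ := h
  simp only [MG.loopify] at h5 h6
  refine ⟨v, ?_, ?_⟩
  · split_ifs at h5 <;> tauto
  · split_ifs at h6 <;> tauto

lemma cut_loopify {E : Type*} (M : MG V E) (H : Set E) (U : Set V) :
    (M.loopify H).cut U = H ∩ M.cut U := by
  ext e
  by_cases h : e ∈ H <;> simp [MG.cut, MG.loopify, h]

theorem ham_of_even {E : Type*} [Infinite V] [Countable E] (G0 : MG V E) (LG : SimpleGraph E)
    (hLG : ∀ e f, LG.Adj e f ↔ e ≠ f ∧ G0.Touch e f) {H : Set E}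
    (h1 : ∀ a b, G0.Conn H a b)
    (h2 : ∀ U, (H ∩ G0.cut U).Finite → (G0.cut U).Finite) (h3 : G0.EC H) :
    HasHamiltonCircle LG := by
  set M := G0.loopify H with hM
  have : Infinite E := by
    by_contra h
    rw [not_infinite_iff_finite] at h
    obtain ⟨A, hA⟩ := G0.exists_ends (N := Set.univ) Set.finite_univ
    obtain ⟨x, hx⟩ := Infinite.exists_notMem_finset A
    obtain ⟨y, hy⟩ := exists_ne x
    rcases Relation.ReflTransGen.cases_tail (h1 y x) with h | ⟨c, -, e, -, ⟨-, h⟩ | ⟨h, -⟩⟩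
    · exact hy h.symm
    · exact hx (h ▸ (hA (Set.mem_univ e)).2)
    · exact hx (h ▸ (hA (Set.mem_univ e)).1)
  have : LG.LocallyFinite := fun e => Set.Finite.fintype (by
    refine ((G0.lf (G0.s e)).union (G0.lf (G0.t e))).subset fun f hf => ?_
    obtain ⟨-, v, rfl | rfl, h⟩ := (hLG e f).mp hf
    · exact Or.inl h
    · exact Or.inr h)
  obtain ⟨o, b, t, hT⟩ := M.exists_tour
    (fun a b => ((h1 a b).loopify subset_rfl).mono (Set.subset_univ _))
    (fun U => by simpa only [Set.univ_inter, hM, cut_loopify] using h3 U)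
  have hbt : t ≠ b := fun h => Set.infinite_univ (α := E)
    ((Set.finite_singleton b).subset fun x _ => le_antisymm (h ▸ hT.ht x) (hT.hb x))
  refine ham_of_order b t hT.hb hT.ht hT.hs hT.hp (fun x y hxy => ?_)
    ((hLG _ _).mpr ⟨hbt, touch_loopify hT.htb⟩) (fun S x y hxy hS => ?_) fun z => ?_
  · refine (hLG _ _).mpr ⟨hxy.ne, touch_loopify (H := H) ?_⟩
    have key : ∀ c, Relation.ReflTransGen (fun a c => M.Touch a c ∧ x ≤ c ∧ c ≤ y) x c →
        c = x ∨ M.Touch x y := by
      intro c hc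
      induction hc with
      | refl => exact Or.inl rfl
      | tail _ hbc ih =>
        rcases ih with rfl | ih
        · rcases hxy.eq_or_eq hbc.2.1 hbc.2.2 with h | h
          · exact Or.inl h
          · exact Or.inr (h ▸ hbc.1)
        · exact Or.inr ih
    exact (key y (hT.h3 x y hxy.le)).resolve_left hxy.ne'
  · have h4 : ∀ c, x ≤ c → c ≤ y → c ∉ S := fun c h h' hc =>
      (hS c hc).elim (not_lt.mpr h) (not_lt.mpr h')
    have key : ∀ c, Relation.ReflTransGen (fun a c => M.Touch a c ∧ x ≤ c ∧ c ≤ y) x c →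
        Link LG S x c := by
      intro c hc
      induction hc with
      | refl => exact Link.refl (h4 x le_rfl hxy)
      | @tail a c _ hbc ih =>
        by_cases h : a = c
        · exact h ▸ ih
        · exact ih.trans (Link.of_adj ((hLG _ _).mpr ⟨h, touch_loopify hbc.1⟩) ih.right
            (h4 c hbc.2.1 hbc.2.2))
    exact key y (hT.h3 x y hxy)
  · obtain ⟨L, hL⟩ := hT.h4 z
    obtain ⟨A, hA⟩ := M.exists_ends L.finite_toSet
    have h5 : ∀ u, M.cut {w | M.Conn {e | e ∉ L} u w} ⊆ {e | e ∈ L} := fun u e he => by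
      by_contra h
      exact MG.not_mem_cut_conn (N := {e | e ∉ L}) h he
    have h6 : ∀ u, (G0.cut {w | M.Conn {e | e ∉ L} u w}).Finite := fun u =>
      h2 _ (cut_loopify G0 H _ ▸ L.finite_toSet.subset (h5 u))
    have h7 := L.finite_toSet.union (A.finite_toSet.biUnion fun u _ => h6 u)
    refine ⟨h7.toFinset, fun x y hx hy h => ?_⟩
    have h8 : ∀ e, e ∉ h7.toFinset → e ∉ L := fun e he h => he (h7.mem_toFinset.mpr (Or.inl h))
    have h9 := hL x y hx hy (h8 x h.left) (h8 y h.right)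
    obtain ⟨g, hg, u, h10, h11⟩ := MG.exists_hit
      (((h1 _ _).loopify subset_rfl).mono (Set.subset_univ _)) (MG.Conn.refl M _ _) h9
    have h12 : u ∈ A := by
      rcases h11 with rfl | rfl
      · exact (hA (not_not.mp hg)).1
      · exact (hA (not_not.mp hg)).2
    have h13 : ∀ e, e ∉ h7.toFinset →
        (M.Conn {e | e ∉ L} u (G0.s e) ↔ M.Conn {e | e ∉ L} u (G0.t e)) := by
      intro e he
      by_contra h
      exact he (h7.mem_toFinset.mpr (Or.inr (Set.mem_biUnion h12 h)))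
    refine h9 (h10.trans (h.ind (P := fun e => M.Conn {e | e ∉ L} u (G0.s e))
      (fun a c hac ha hc h14 => ?_) h10.symm))
    obtain ⟨-, v, h15, h16⟩ := (hLG a c).mp hac
    have h17 : M.Conn {e | e ∉ L} u v := h15.elim (fun h => h ▸ h14) fun h => h ▸ (h13 a ha).mp h14
    exact h16.elim (fun h => h ▸ h17) fun h => (h13 c hc).mpr (h ▸ h17)

theorem main_countable [Infinite V] (h4 : G.IsEdgeConnected 4) (hc : Countable (End G)) :
    HasHamiltonCircle G.lineGraph := by
  have hpc := h4.preconnected (by norm_num)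
  have := countable_of_preconnected G hpc
  obtain ⟨Z⟩ := exists_endSys G hpc
  obtain ⟨T, hT⟩ := Z.spine_univ (four_le_cut G h4)
  obtain ⟨H, h1, h2, h3⟩ := hT.even
  exact ham_of_even (ofSG G) G.lineGraph (line_adj_iff G) h1 h2 h3

end Pool.Agent.MP_7f38c2_co.H94
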