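import Mathlib

/-! Rays, ends, the Freudenthal (end) compactification of a graph, and hamilton circles. -/

namespace Pool.Agent.MP_7f38c2_co.H94

variable {W : Type*}

/-- A ray: a one-way infinite path. -/
structure Ray (H : SimpleGraph W) where
  toFun : ℕ → W
  inj : Function.Injective toFun
  adj : ∀ n, H.Adj (toFun n) (toFun (n + 1))

/-- `u` and `v` are joined by a walk of `H` avoiding `S`, i.e. they lie in one component
of `H - S`. -/
def Link (H : SimpleGraph W) (S : Finset W) (u v : W) : Prop :=
  ∃ p : H.Walk u v, ∀ x ∈ p.support, x ∉ S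

/-- Two rays are equivalent if no finite vertex set separates them. -/
def Ray.Equiv {H : SimpleGraph W} (r r' : Ray H) : Prop :=
  ∀ S : Finset W, ∃ m n, Link H S (r.toFun m) (r'.toFun n)

section
variable {H : SimpleGraph W} {S : Finset W} {u v w : W}

theorem Link.refl (h : u ∉ S) : Link H S u u := ⟨.nil, by simpa using h⟩

theorem Link.symm (h : Link H S u v) : Link H S v u :=
  ⟨h.choose.reverse, fun x hx => h.choose_spec x (by simpa using hx)⟩

theorem Link.trans (h : Link H S u v) (h' : Link H S v w) : Link H S u w :=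
  ⟨h.choose.append h'.choose, fun x hx =>
    ((SimpleGraph.Walk.mem_support_append_iff _ _).mp hx).elim (h.choose_spec x)
      (h'.choose_spec x)⟩

theorem Link.of_adj (h : H.Adj u v) (hu : u ∉ S) (hv : v ∉ S) : Link H S u v :=
  ⟨.cons h .nil, by simp [hu, hv]⟩

theorem Link.mono {S' : Finset W} (hS : S ⊆ S') (h : Link H S' u v) : Link H S u v :=
  ⟨h.choose, fun x hx h' => h.choose_spec x hx (hS h')⟩

theorem Link.left (h : Link H S u v) : u ∉ S := h.choose_spec u (by simp)

theorem Link.right (h : Link H S u v) : v ∉ S := h.symm.left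

theorem Ray.tail (r : Ray H) (S : Finset W) :
    ∃ N, ∀ m n, N ≤ m → N ≤ n → Link H S (r.toFun m) (r.toFun n) := by
  obtain ⟨N, hN⟩ := (S.finite_toSet.preimage r.inj.injOn).bddAbove
  have h1 : ∀ n, N + 1 ≤ n → r.toFun n ∉ S := fun n hn h => by
    have := hN (show n ∈ r.toFun ⁻¹' S from h)
    omega
  have h2 : ∀ n, N + 1 ≤ n → Link H S (r.toFun (N + 1)) (r.toFun n) := by
    intro n hn
    induction hn with
    | refl => exact Link.refl (h1 _ le_rfl)
    | @step n hn ih => exact ih.trans (Link.of_adj (r.adj n) (h1 _ hn) (h1 _ (Nat.le_succ_of_le hn)))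
  exact ⟨N + 1, fun m n hm hn => (h2 m hm).symm.trans (h2 n hn)⟩

theorem Ray.Equiv.tail {r r' : Ray H} (h : r.Equiv r') (S : Finset W) :
    ∃ N, ∀ m n, N ≤ m → N ≤ n → Link H S (r.toFun m) (r'.toFun n) := by
  classical
  obtain ⟨N, hN⟩ := r.tail S
  obtain ⟨N', hN'⟩ := r'.tail S
  obtain ⟨a, b, hab⟩ := h (S ∪ (Finset.range N).image r.toFun ∪ (Finset.range N').image r'.toFun)
  have ha : N ≤ a := by
    by_contra hc
    exact hab.left (Finset.mem_union_left _ (Finset.mem_union_right _
      (Finset.mem_image_of_mem _ (Finset.mem_range.mpr (not_le.mp hc)))))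
  have hb : N' ≤ b := by
    by_contra hc
    exact hab.right (Finset.mem_union_right _
      (Finset.mem_image_of_mem _ (Finset.mem_range.mpr (not_le.mp hc))))
  refine ⟨max N N', fun m n hm hn => ((hN m a (le_of_max_le_left hm) ha).trans
    (hab.mono ?_)).trans (hN' b n hb (le_of_max_le_right hn))⟩
  exact Finset.subset_union_left.trans Finset.subset_union_left

end

/-- The equivalence of rays, as a setoid. -/
def raySetoid (H : SimpleGraph W) : Setoid (Ray H) where
  r := Ray.Equiv
  iseqv :=
    { refl := fun r S => let ⟨N, hN⟩ := r.tail S; ⟨N, N, hN N N le_rfl le_rfl⟩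
      symm := fun h S => let ⟨m, n, h'⟩ := h S; ⟨n, m, h'.symm⟩
      trans := fun h h' S =>
        let ⟨N, hN⟩ := h.tail S
        let ⟨N', hN'⟩ := h'.tail S
        ⟨N, N', (hN N (max N N') le_rfl (le_max_left _ _)).trans
          (hN' (max N N') N' (le_max_right _ _) le_rfl)⟩ }

/-- An end: an equivalence class of rays. -/
def End (H : SimpleGraph W) := Quotient (raySetoid H)

/-- The end that contains a given ray. -/
def Ray.toEnd {H : SimpleGraph W} (r : Ray H) : End H := Quotient.mk (raySetoid H) r

/-- Every ray of the end `ω` has a tail in `C`. -/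
def TailIn {H : SimpleGraph W} (ω : End H) (C : Set W) : Prop :=
  ∀ r : Ray H, r.toEnd = ω → ∃ N, ∀ n, N ≤ n → r.toFun n ∈ C

/-- `C(S, ω)`: the vertex set of the component of `H - S` that contains a tail of every ray
of `ω`. -/
def Comp (H : SimpleGraph W) (S : Finset W) (ω : End H) : Set W :=
  {v | TailIn ω {w | Link H S v w}}

open Classical in
/-- Barycentric coordinates of the point of the segment from `v` to `u` with parameter `t`
(weight `t` at `u`, weight `1 - t` at `v`); for `u = v` this is the vertex `u`. -/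
noncomputable def seg (u v : W) (t : ℝ) : W → ℝ :=
  fun x => (if x = u then t else 0) + (if x = v then 1 - t else 0)

/-- The 1-complex of `H` in barycentric coordinates: the vertices and, for each edge `uv`, a copy
of `[0,1]`.  It carries the subspace topology of `W → ℝ`. -/
def cx (H : SimpleGraph W) : Set (W → ℝ) :=
  {p | ∃ u v t, (u = v ∨ H.Adj u v) ∧ 0 ≤ t ∧ t ≤ 1 ∧ p = seg u v t}

/-- The points of the Freudenthal compactification `|H|`: points of the 1-complex, and ends. -/
inductive Fr (H : SimpleGraph W)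
  | pt (p : cx H)
  | en (ω : End H)

/-- The basic open neighbourhood of `ω` given by `S` and `ε`: the subcomplex `C(S, ω)`, the
points at distance less than `ε` from a vertex of `C(S, ω)` (this adds the open half-edges of
length `ε` on the edges between `S` and `C(S, ω)`), and the ends with tails in `C(S, ω)`. -/
def endNbhd (H : SimpleGraph W) (S : Finset W) (ω : End H) (ε : ℝ) : Set (Fr H) :=
  Fr.pt '' {p | (∀ v, v ∉ Comp H S ω → p.1 v = 0) ∨ ∃ v ∈ Comp H S ω, 1 - ε < p.1 v} ∪
    Fr.en '' {ω' | TailIn ω' (Comp H S ω)}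

/-- The topology of `|H|`, generated by the open sets of the 1-complex and the basic open
neighbourhoods of the ends. -/
instance frTop (H : SimpleGraph W) : TopologicalSpace (Fr H) :=
  TopologicalSpace.generateFrom
    ({U | ∃ O : Set (cx H), IsOpen O ∧ U = Fr.pt '' O} ∪
      {U | ∃ (S : Finset W) (ω : End H) (ε : ℝ), 0 < ε ∧ ε < 1 ∧ U = endNbhd H S ω ε})

/-- The point of `|H|` given by a vertex. -/
noncomputable def vertexPt (H : SimpleGraph W) (v : W) : Fr H :=
  Fr.pt ⟨seg v v 1, v, v, 1, Or.inl rfl, zero_le_one, le_rfl, rfl⟩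

/-- `H` has a hamilton circle: a subspace of `|H|` homeomorphic to the circle that contains
every vertex. -/
def HasHamiltonCircle (H : SimpleGraph W) : Prop :=
  ∃ C : Set (Fr H), Nonempty (C ≃ₜ Circle) ∧ ∀ v, vertexPt H v ∈ C

end Pool.Agent.MP_7f38c2_co.H94
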