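import Pool.Agent.MP_7f38c2_co.H94.Defs

/-! Basic facts on ends, compactness of the end space, and the Hausdorff property of `|H|`. -/

namespace Pool.Agent.MP_7f38c2_co.H94

open Filter

variable {W : Type*} {H : SimpleGraph W} {S : Finset W} {u v w : W}

theorem Link.ind {P : W → Prop} (hP : ∀ a b, H.Adj a b → a ∉ S → b ∉ S → P a → P b)
    (h : Link H S u v) (hu : P u) : P v := by
  obtain ⟨p, hp⟩ := h
  induction p with
  | nil => exact hu
  | @cons a b c hab q ih =>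
    exact ih (hP a b hab (hp a (by simp)) (hp b (by simp)) hu)
      (fun x hx => hp x (by simp [hx]))

theorem toEnd_eq {r r' : Ray H} : r.toEnd = r'.toEnd ↔ r.Equiv r' := Quotient.eq (r := raySetoid H)

theorem End.exists_ray (ω : End H) : ∃ r : Ray H, r.toEnd = ω := Quotient.exists_rep ω

theorem mem_comp {r : Ray H} :
    v ∈ Comp H S r.toEnd ↔ ∃ N, ∀ n, N ≤ n → Link H S v (r.toFun n) := by
  refine ⟨fun h => h r rfl, fun ⟨N, hN⟩ r' hr' => ?_⟩
  obtain ⟨M, hM⟩ := (toEnd_eq.mp hr').tail S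
  exact ⟨M, fun n hn => (hN (max N M) (le_max_left _ _)).trans
    (hM n (max N M) hn (le_max_right _ _)).symm⟩

theorem tailIn_comp (S : Finset W) (ω : End H) : TailIn ω (Comp H S ω) := by
  rintro r rfl
  obtain ⟨N, hN⟩ := r.tail S
  exact ⟨N, fun n hn => mem_comp.mpr ⟨N, fun m hm => hN n m hn hm⟩⟩

theorem comp_nonempty (S : Finset W) (ω : End H) : (Comp H S ω).Nonempty := by
  obtain ⟨r, rfl⟩ := ω.exists_ray
  obtain ⟨N, hN⟩ := tailIn_comp S _ r rfl
  exact ⟨_, hN N le_rfl⟩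

theorem comp_link {ω : End H} (hv : v ∈ Comp H S ω) (h : Link H S v w) : w ∈ Comp H S ω := by
  intro r hr
  obtain ⟨N, hN⟩ := hv r hr
  exact ⟨N, fun n hn => h.symm.trans (hN n hn)⟩

theorem link_of_comp {ω : End H} (hv : v ∈ Comp H S ω) (hw : w ∈ Comp H S ω) : Link H S v w := by
  obtain ⟨r, rfl⟩ := ω.exists_ray
  obtain ⟨N, hN⟩ := hv r rfl
  obtain ⟨M, hM⟩ := hw r rfl
  exact (hN _ (le_max_left N M)).trans (hM _ (le_max_right N M)).symm

theorem not_mem_of_comp {ω : End H} (hv : v ∈ Comp H S ω) : v ∉ S := (link_of_comp hv hv).left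

theorem comp_eq {ω ω' : End H} (hv : v ∈ Comp H S ω) (hv' : v ∈ Comp H S ω') :
    Comp H S ω = Comp H S ω' :=
  Set.Subset.antisymm (fun _ h => comp_link hv' (link_of_comp hv h))
    (fun _ h => comp_link hv (link_of_comp hv' h))

theorem TailIn.inter_nonempty {ω : End H} {A B : Set W} (hA : TailIn ω A) (hB : TailIn ω B) :
    (A ∩ B).Nonempty := by
  obtain ⟨r, rfl⟩ := ω.exists_ray
  obtain ⟨N, hN⟩ := hA r rfl
  obtain ⟨M, hM⟩ := hB r rfl
  exact ⟨_, hN _ (le_max_left N M), hM _ (le_max_right N M)⟩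

theorem comp_eq_of_tailIn {ω ω' : End H} (h : TailIn ω' (Comp H S ω)) :
    Comp H S ω' = Comp H S ω := by
  obtain ⟨v, h1, h2⟩ := (tailIn_comp S ω').inter_nonempty h
  exact comp_eq h1 h2

theorem exists_sep {ω ω' : End H} (h : ω ≠ ω') :
    ∃ S : Finset W, Disjoint (Comp H S ω) (Comp H S ω') := by
  obtain ⟨r, rfl⟩ := ω.exists_ray
  obtain ⟨r', rfl⟩ := ω'.exists_ray
  rw [Ne, toEnd_eq] at h
  obtain ⟨S, hS⟩ := not_forall.mp h
  refine ⟨S, Set.disjoint_left.mpr fun v h1 h2 => hS ?_⟩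
  obtain ⟨N, hN⟩ := mem_comp.mp h1
  obtain ⟨M, hM⟩ := mem_comp.mp h2
  exact ⟨N, M, (hN N le_rfl).symm.trans (hM M le_rfl)⟩

theorem exists_parent (hc : H.Preconnected) (v0 : W) (v : W) :
    ∃ u, ∀ n, H.dist v v0 = n + 1 → H.Adj v u ∧ H.dist u v0 = n := by
  obtain ⟨p, hp⟩ := (hc v v0).exists_walk_length_eq_dist
  cases p with
  | nil => exact ⟨v0, fun n hn => by simp at hn⟩
  | @cons _ u _ h q =>
    refine ⟨u, fun n hn => ⟨h, ?_⟩⟩
    obtain ⟨q', hq'⟩ := (hc u v0).exists_walk_length_eq_dist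
    have h1 := SimpleGraph.dist_le q
    have h2 := SimpleGraph.dist_le (SimpleGraph.Walk.cons h q')
    simp only [SimpleGraph.Walk.length_cons] at hp h2
    omega

/-- every non-principal ultrafilter on the vertex set converges to an end -/
theorem exists_end_of_ultrafilter [H.LocallyFinite] (hc : H.Preconnected) (𝒰 : Ultrafilter W)
    (hU : (𝒰 : Filter W) ≤ cofinite) : ∃ ω : End H, ∀ S : Finset W, Comp H S ω ∈ 𝒰 := by
  obtain ⟨v0⟩ : Nonempty W := 𝒰.nonempty_of_mem univ_mem |>.to_type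
  choose par hpar using exists_parent hc v0
  have hfin : ∀ i, {v | H.dist v v0 = i}.Finite := by
    intro i
    induction i with
    | zero =>
      refine (Set.finite_singleton v0).subset fun v hv => ?_
      exact ((hc v v0).dist_eq_zero_iff).mp hv
    | succ i ih =>
      refine (ih.biUnion fun u _ => Set.toFinite (H.neighborSet u)).subset fun v hv => ?_
      exact Set.mem_biUnion (hpar v i hv).2 (hpar v i hv).1.symm
  have hbig : ∀ i, ∀ᶠ z in (𝒰 : Filter W), i ≤ H.dist z v0 := by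
    intro i
    refine hU (((Set.finite_Iio i).biUnion fun j _ => hfin j).subset fun z hz => ?_)
    exact Set.mem_biUnion (x := H.dist z v0) (not_le.mp (show ¬ i ≤ H.dist z v0 from hz)) rfl
  have hit : ∀ k z i, H.dist z v0 = i + k → H.dist (par^[k] z) v0 = i := by
    intro k
    induction k with
    | zero => exact fun z i h => h
    | succ k ih =>
      intro z i h
      rw [Function.iterate_succ_apply']
      exact (hpar _ i (ih z (i + 1) (by omega))).2
  let anc : W → ℕ → W := fun z i => par^[H.dist z v0 - i] z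
  have hanc : ∀ z i, i ≤ H.dist z v0 → H.dist (anc z i) v0 = i := fun z i h =>
    hit _ z i (by omega)
  have hlim : ∀ i, ∃ x, ∀ᶠ z in (𝒰 : Filter W), anc z i = x := by
    intro i
    have h1 : ∀ᶠ z in (𝒰 : Filter W), ∃ x ∈ {v | H.dist v v0 = i}, anc z i = x :=
      (hbig i).mono fun z hz => ⟨_, hanc z i hz, rfl⟩
    obtain ⟨x, -, hx⟩ := (Ultrafilter.eventually_exists_mem_iff (hfin i)).mp h1
    exact ⟨x, hx⟩
  choose r hr using hlim
  have hrd : ∀ i, H.dist (r i) v0 = i := by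
    intro i
    obtain ⟨z, h1, h2⟩ := ((hr i).and (hbig i)).exists
    exact h1 ▸ hanc z i h2
  have hstep : ∀ z i, i + 1 ≤ H.dist z v0 → H.Adj (anc z (i + 1)) (anc z i) := by
    intro z i h
    have h1 : anc z i = par (anc z (i + 1)) := by
      simp only [anc]
      rw [← Function.iterate_succ_apply' par]
      congr 1
      omega
    rw [h1]
    exact (hpar _ i (hanc z _ h)).1
  let R : Ray H := ⟨r, fun a b h => by rw [← hrd a, h, hrd b], fun i => by
    obtain ⟨z, h1, h2, h3⟩ := ((hr i).and ((hr (i + 1)).and (hbig (i + 1)))).exists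
    rw [← h1, ← h2]
    exact (hstep z i h3).symm⟩
  refine ⟨R.toEnd, fun S => ?_⟩
  obtain ⟨N, hN⟩ := tailIn_comp S R.toEnd R rfl
  obtain ⟨M, hM⟩ := (S.finite_toSet.image fun v => H.dist v v0).bddAbove
  set K := max N (M + 1) with hK
  have hS : ∀ x, K ≤ H.dist x v0 → x ∉ S := fun x hx h => by
    have := hM ⟨x, h, rfl⟩
    simp only at this
    omega
  refine mem_of_superset ((hr K).and (hbig K)) fun z hz => ?_
  obtain ⟨h1, h2⟩ := hz
  have h3 : ∀ i, K ≤ i → i ≤ H.dist z v0 → anc z i ∈ Comp H S R.toEnd := by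
    intro i hi
    induction hi with
    | refl => exact fun _ => h1 ▸ hN K (le_max_left _ _)
    | @step i hi ih =>
      intro h
      have hi' : K ≤ i := hi
      have h' : i + 1 ≤ H.dist z v0 := h
      refine comp_link (ih (by omega)) (Link.of_adj (hstep z i h').symm (hS _ ?_) (hS _ ?_))
      · rw [hanc z i (by omega)]; exact hi'
      · rw [hanc z _ h']; omega
  simpa [anc] using h3 _ h2 le_rfl

theorem cx_nonneg (p : cx H) (v : W) : 0 ≤ p.1 v := by
  obtain ⟨p, a, b, t, -, h0, h1, rfl⟩ := p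
  simp only [seg]
  split_ifs <;> linarith

theorem cx_add_le (p : cx H) (h : u ≠ v) : p.1 u + p.1 v ≤ 1 := by
  obtain ⟨p, a, b, t, -, h0, h1, rfl⟩ := p
  simp only [seg]
  split_ifs <;> first | linarith | (exfalso; simp_all)

theorem cx_half (p : cx H) : ∃ v, 1 / 2 ≤ p.1 v := by
  obtain ⟨p, a, b, t, -, h0, h1, rfl⟩ := p
  rcases le_total t (1 / 2) with h | h
  · refine ⟨b, ?_⟩
    simp only [seg, if_true]
    split_ifs <;> linarith
  · refine ⟨a, ?_⟩
    simp only [seg, if_true]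
    split_ifs <;> linarith

theorem isOpen_pt {O : Set (cx H)} (h : IsOpen O) : IsOpen (Fr.pt '' O) :=
  TopologicalSpace.isOpen_generateFrom_of_mem (Or.inl ⟨O, h, rfl⟩)

theorem isOpen_endNbhd (S : Finset W) (ω : End H) {ε : ℝ} (h0 : 0 < ε) (h1 : ε < 1) :
    IsOpen (endNbhd H S ω ε) :=
  TopologicalSpace.isOpen_generateFrom_of_mem (Or.inr ⟨S, ω, ε, h0, h1, rfl⟩)

theorem pt_mem_endNbhd {ω : End H} {ε : ℝ} {p : cx H} : Fr.pt p ∈ endNbhd H S ω ε ↔
    (∀ v, v ∉ Comp H S ω → p.1 v = 0) ∨ ∃ v ∈ Comp H S ω, 1 - ε < p.1 v := by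
  simp [endNbhd]

theorem en_mem_endNbhd {ω ω' : End H} {ε : ℝ} :
    Fr.en ω' ∈ endNbhd H S ω ε ↔ TailIn ω' (Comp H S ω) := by
  simp [endNbhd]

theorem sep_pt_en (p : cx H) (ω : End H) : ∃ U U' : Set (Fr H), IsOpen U ∧ IsOpen U' ∧
    Fr.pt p ∈ U ∧ Fr.en ω ∈ U' ∧ Disjoint U U' := by
  obtain ⟨v, hv⟩ := cx_half p
  refine ⟨Fr.pt '' {q | 1 / 3 < q.1 v}, endNbhd H {v} ω (1 / 3), isOpen_pt ?_,
    isOpen_endNbhd _ _ (by norm_num) (by norm_num), ⟨p, by simp only [Set.mem_ofPred_eq]; linarith, rfl⟩,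
    en_mem_endNbhd.mpr (tailIn_comp _ _), Set.disjoint_left.mpr ?_⟩
  · exact isOpen_lt continuous_const ((continuous_apply v).comp continuous_subtype_val)
  · rintro _ ⟨q, hq, rfl⟩ h
    simp only [Set.mem_ofPred_eq] at hq
    have h1 : v ∉ Comp H {v} ω := fun h => not_mem_of_comp h (Finset.mem_singleton_self v)
    rcases pt_mem_endNbhd.mp h with h | ⟨u, hu, h⟩
    · linarith [h v h1]
    · linarith [cx_add_le q (show u ≠ v from fun h => h1 (h ▸ hu))]

instance : T2Space (Fr H) := by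
  refine ⟨fun x y hxy => ?_⟩
  rcases x with p | ω <;> rcases y with q | ω'
  · obtain ⟨U, U', h1, h2, h3, h4, h5⟩ := t2_separation (show p ≠ q from fun h => hxy (h ▸ rfl))
    exact ⟨Fr.pt '' U, Fr.pt '' U', isOpen_pt h1, isOpen_pt h2, ⟨p, h3, rfl⟩, ⟨q, h4, rfl⟩,
      (Set.disjoint_image_iff fun a b h => Fr.pt.inj h).mpr h5⟩
  · exact sep_pt_en p ω'
  · obtain ⟨U, U', h1, h2, h3, h4, h5⟩ := sep_pt_en q ω
    exact ⟨U', U, h2, h1, h4, h3, h5.symm⟩
  · obtain ⟨S, hS⟩ := exists_sep (show ω ≠ ω' from fun h => hxy (h ▸ rfl))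
    refine ⟨endNbhd H S ω (1 / 2), endNbhd H S ω' (1 / 2),
      isOpen_endNbhd _ _ (by norm_num) (by norm_num),
      isOpen_endNbhd _ _ (by norm_num) (by norm_num), en_mem_endNbhd.mpr (tailIn_comp _ _),
      en_mem_endNbhd.mpr (tailIn_comp _ _), Set.disjoint_left.mpr ?_⟩
    have hd := Set.disjoint_left.mp hS
    rintro (p | η) h h'
    · obtain ⟨v, hv⟩ := cx_half p
      rcases pt_mem_endNbhd.mp h with h | ⟨u, hu, h⟩ <;>
        rcases pt_mem_endNbhd.mp h' with h' | ⟨u', hu', h'⟩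
      · by_cases h1 : v ∈ Comp H S ω
        · linarith [h' v (hd h1)]
        · linarith [h v h1]
      · linarith [h u' (fun h1 => hd h1 hu')]
      · linarith [h' u (hd hu)]
      · linarith [cx_add_le p (show u ≠ u' from fun h => hd hu (h ▸ hu'))]
    · obtain ⟨v, h1, h2⟩ := (en_mem_endNbhd.mp h).inter_nonempty (en_mem_endNbhd.mp h')
      exact hd h1 h2

end Pool.Agent.MP_7f38c2_co.H94
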