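import Pool.Agent.MP_7f38c2_co.H94.Trail

/-! Spines outside a smallest cut, quotients, and gluing of spines. -/

namespace Pool.Agent.MP_7f38c2_co.H10

open Classical

namespace MG

variable {V E : Type*}

theorem exists_spine_from (G : MG V E) (h4 : ∀ X : Finset V, X.Nonempty → 4 ≤ G.d X)
    (H3 : ∀ U : Set V, (G.cut U).Finite → U.Finite ∨ Uᶜ.Finite) [Infinite V] [Countable V]
    (S0 : Finset V) (hS0 : G.MinC S0) :
    ∃ T : Set E, G.Wired (↑S0)ᶜ Tᶜ ∧ (∀ a b, a ∉ S0 → b ∉ S0 → G.Conn (T ∩ G.In (↑S0)ᶜ) a b) ∧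
      ∀ Y : Finset V, ∃ S : Finset V, Y ⊆ S ∧ S0 ⊆ S ∧
        ∀ a b, a ∉ S → b ∉ S → G.Conn (T ∩ G.In (↑S)ᶜ) a b := by
  obtain ⟨v, hv⟩ := exists_surjective_nat V
  choose TT SS hmin hsub hmem hbd hw hw' hconn using G.step_next h4 H3
  let st : ℕ → {S : Finset V // G.MinC S} := fun n => Nat.rec ⟨S0, hS0⟩
    (fun n p => ⟨SS p.1 p.2 (v n), hmin _ _ _⟩) n
  let S : ℕ → Finset V := fun n => (st n).1
  let T : ℕ → Set E := fun n => TT (st n).1 (st n).2 (v n)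
  have hS0 : S 0 = S0 := rfl
  have hmono : Monotone S := monotone_nat_of_le_succ fun n => hsub (st n).1 (st n).2 (v n)
  have h1 : ∀ n, v n ∈ S (n + 1) := fun n => hmem (st n).1 (st n).2 (v n)
  have h2 : ∀ n, G.Bd (S n) ⊆ S (n + 1) := fun n => hbd (st n).1 (st n).2 (v n)
  have h3 : ∀ n, G.Wired (↑(S n))ᶜ (T n) := fun n => hw (st n).1 (st n).2 (v n)
  have h5 : ∀ n, G.Wired (↑(S n))ᶜ (T n)ᶜ := fun n => hw' (st n).1 (st n).2 (v n)
  have h6 : ∀ n, ∀ a ∈ G.Bd (S n), ∀ b ∈ G.Bd (S n),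
      G.Conn (T n ∩ G.In (↑(S n))ᶜ ∩ G.Inc (S (n + 1))) a b :=
    fun n => hconn (st n).1 (st n).2 (v n)
  clear_value S T
  have hex : ∀ X : Finset V, ∃ n, X ⊆ S n := by
    intro X
    induction X using Finset.induction_on with
    | empty => exact ⟨0, by simp⟩
    | insert a X _ ih =>
      obtain ⟨n, hn⟩ := ih
      obtain ⟨k, rfl⟩ := hv a
      exact ⟨max n (k + 1), Finset.insert_subset (hmono (le_max_right _ _) (h1 k))
        (hn.trans (hmono (le_max_left _ _)))⟩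
  set T' := ⋃ n, T n ∩ G.In (↑(S n))ᶜ ∩ G.Inc (S (n + 1)) with hT'
  have hL : ∀ m k, m ≤ k → T k ∩ G.In (↑(S k))ᶜ ∩ G.Inc (S (k + 1)) ⊆ T' ∩ G.In (↑(S m))ᶜ :=
    fun m k hmk e he => ⟨Set.mem_iUnion.mpr ⟨k, he⟩, G.In_mono
      (Set.compl_subset_compl.mpr (Finset.coe_subset.mpr (hmono hmk))) he.1.2⟩
  have key : ∀ m a b, a ∉ S m → b ∉ S m → G.Conn (T' ∩ G.In (↑(S m))ᶜ) a b := by
    intro m
    have h7 : ∀ k, m ≤ k → ∀ a, a ∉ S m → a ∈ S k →
        ∃ a' ∈ G.Bd (S k), G.Conn (T' ∩ G.In (↑(S m))ᶜ) a a' := by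
      intro k hk
      induction hk with
      | refl => exact fun a h h' => absurd h' h
      | @step k hk ih =>
        intro a ha ha'
        obtain ⟨c, hc, hc', hac⟩ : ∃ c, c ∉ S k ∧ c ∈ S (k + 1) ∧
            G.Conn (T' ∩ G.In (↑(S m))ᶜ) a c := by
          by_cases h : a ∈ S k
          · obtain ⟨c, hc, hac⟩ := ih a ha h
            exact ⟨c, hc.1, h2 k hc, hac⟩
          · exact ⟨a, h, ha', Conn.refl _ _ _⟩
        obtain ⟨c', -, h8, h9⟩ := (h3 k).escape (a := c) hc (S (k + 1))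
        exact ⟨c', h9 hc', hac.trans (h8.mono (hL m k hk))⟩
    intro a b ha hb
    obtain ⟨n, hn⟩ := hex {a, b}
    obtain ⟨a', h8, h9⟩ := h7 (max m n) (le_max_left _ _) a ha
      (hmono (le_max_right _ _) (hn (by simp)))
    obtain ⟨b', h10, h11⟩ := h7 (max m n) (le_max_left _ _) b hb
      (hmono (le_max_right _ _) (hn (by simp)))
    exact h9.trans (((h6 _ a' h8 b' h10).mono (hL m _ (le_max_left _ _))).trans h11.symm)
  refine ⟨T', fun X hX hXS => ?_, fun a b => hS0 ▸ key 0 a b, fun Y => ?_⟩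
  · have hX' := hex X
    obtain ⟨n, hn⟩ : ∃ n, Nat.find hX' = n + 1 := by
      refine Nat.exists_eq_succ_of_ne_zero fun h => ?_
      have := Nat.find_spec hX'
      rw [h, hS0] at this
      obtain ⟨x, hx⟩ := hX
      exact hXS hx (this hx)
    have h7 : X ⊆ S (n + 1) := hn ▸ Nat.find_spec hX'
    obtain ⟨u, hu, hu'⟩ := Finset.not_subset.mp (Nat.find_min hX' (m := n) (by omega))
    obtain ⟨e, he, h8⟩ := h5 n (X.filter (· ∉ S n)) ⟨u, Finset.mem_filter.mpr ⟨hu, hu'⟩⟩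
      (fun u hu => (Finset.mem_filter.mp hu).2)
    have h9 : G.s e ∉ S n := he.2.1
    have h10 : G.t e ∉ S n := he.2.2
    have h11 : e ∈ G.cut X := by simpa [cut, h9, h10] using h8
    have h13 : S0 ⊆ S n := hS0 ▸ hmono (Nat.zero_le n)
    refine ⟨e, ⟨fun h => ?_, fun h => h9 (h13 h), fun h => h10 (h13 h)⟩, h11⟩
    obtain ⟨k, hk⟩ := Set.mem_iUnion.mp h
    rcases lt_trichotomy k n with h12 | rfl | h12
    · exact hk.2.elim (fun h => h9 (hmono h12 h)) (fun h => h10 (hmono h12 h))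
    · exact he.1 hk.1.1
    · exact h11 ⟨fun h => absurd (hmono h12 (h7 h)) hk.1.2.1,
        fun h => absurd (hmono h12 (h7 h)) hk.1.2.2⟩
  · obtain ⟨n, hn⟩ := hex Y
    exact ⟨S n, hn, hS0 ▸ hmono (Nat.zero_le n), key n⟩

/-- the quotient multigraph, without the loops -/
def quo (G : MG V E) {Q : Type*} (π : V → Q) (h : ∀ q, (G.cut (π ⁻¹' {q})).Finite) :
    MG Q {e // π (G.s e) ≠ π (G.t e)} where
  s e := π (G.s e)
  t e := π (G.t e)
  lf q := ((h q).preimage Subtype.val_injective.injOn).subset (by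
    rintro ⟨e, he⟩ (rfl | rfl) h'
    · exact he (h'.mp rfl).symm
    · exact he (h'.mpr rfl))

lemma image_cut_quo (G : MG V E) {Q : Type*} (π : V → Q) (h : ∀ q, (G.cut (π ⁻¹' {q})).Finite)
    (U : Set Q) : Subtype.val '' (G.quo π h).cut U = G.cut (π ⁻¹' U) := by
  ext e
  refine ⟨?_, fun he => ⟨⟨e, fun h' => he ?_⟩, he, rfl⟩⟩
  · rintro ⟨e, he, rfl⟩
    exact he
  · simp only [Set.mem_preimage, h']

lemma cut_compl (G : MG V E) (U : Set V) : G.cut Uᶜ = G.cut U := by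
  ext e
  simp only [cut, Set.mem_ofPred_eq, Set.mem_compl_iff]
  tauto

lemma cut_inter_finite {G : MG V E} {U U' : Set V} (h : (G.cut U).Finite)
    (h' : (G.cut U').Finite) : (G.cut (U ∩ U')).Finite := (h.union h').subset (by
  intro e he
  simp only [cut, Set.mem_ofPred_eq, Set.mem_inter_iff, Set.mem_union] at he ⊢
  tauto)

/-- `T` is a connected, end-faithful spanning edge set of `C` whose complement meets all finite
cuts of `C` -/
def Spine (G : MG V E) (C : Set V) (T : Set E) : Prop :=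
  T ⊆ G.In C ∧ (∀ a ∈ C, ∀ b ∈ C, G.Conn T a b) ∧
  (∀ U, (T ∩ G.cut U).Finite → (G.In C ∩ G.cut U).Finite) ∧
  (∀ U, (G.In C ∩ G.cut U).Finite → ∀ a ∈ C, ∀ b ∈ C, a ∈ U → b ∉ U →
    ∃ e ∈ G.In C ∩ G.cut U, e ∉ T)

lemma spine_single (G : MG V E) (v : V) : G.Spine {v} ∅ := by
  refine ⟨Set.empty_subset _, ?_, fun U _ => ?_, ?_⟩
  · rintro a rfl b rfl
    exact Conn.refl _ _ _
  · refine Set.finite_empty.subset fun e he => he.2 ?_
    rw [show G.s e = v from he.1.1, show G.t e = v from he.1.2]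
  · rintro U - a rfl b rfl h h'
    exact absurd h h'

lemma Conn.iff_mem {G : MG V E} {N : Set E} {U : Set V} (hN : ∀ e ∈ N, e ∉ G.cut U) {a b : V}
    (h : G.Conn N a b) : a ∈ U ↔ b ∈ U := by
  induction h with
  | refl => rfl
  | tail _ hbc ih =>
    obtain ⟨e, he, h⟩ := hbc
    have h1 := not_not.mp (hN e he)
    rcases h with ⟨rfl, rfl⟩ | ⟨rfl, rfl⟩
    · exact ih.trans h1
    · exact ih.trans h1.symm

theorem glue (G : MG V E) [Countable V]
    (h4 : ∀ U : Set V, (G.cut U).Finite → U.Nonempty → Uᶜ.Nonempty → 4 ≤ (G.cut U).ncard)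
    (𝓕 : Filter V) [𝓕.NeBot] (hdec : ∀ U, (G.cut U).Finite → U ∈ 𝓕 ∨ Uᶜ ∈ 𝓕)
    {C : Set V} (hC : (G.cut C).Finite)
    (hmin : ∀ D ⊆ C, (G.cut D).Finite → D ∈ 𝓕 → (G.cut C).ncard ≤ (G.cut D).ncard)
    (cls : V → Set V) (c1 : ∀ v, v ∈ cls v) (c2 : ∀ v, ∀ w ∈ cls v, cls w = cls v)
    (c3 : ∀ v, (G.cut (cls v)).Finite) (c4 : ∀ v, v ∉ C → cls v = Cᶜ)
    (c5 : ∀ v ∈ C, ∃ T, G.Spine (cls v) T) (c6 : ∀ v, (cls v)ᶜ ∈ 𝓕)
    (c7 : ∀ U, (G.cut U).Finite → Uᶜ ∈ 𝓕 → (cls '' U).Finite) : ∃ T, G.Spine C T := by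
  let Q := Set.range cls
  let π : V → Q := fun v => ⟨cls v, v, rfl⟩
  have hsurj : Function.Surjective π := by
    rintro ⟨_, v, rfl⟩
    exact ⟨v, rfl⟩
  have hπ : ∀ v w, π w = π v ↔ w ∈ cls v := fun v w =>
    ⟨fun h => (show cls w = cls v from congrArg Subtype.val h) ▸ c1 w,
      fun h => Subtype.ext (c2 v w h)⟩
  have hfib : ∀ v, π ⁻¹' {π v} = cls v := fun v => Set.ext (hπ v)
  have hq : ∀ q, (G.cut (π ⁻¹' {q})).Finite := fun q => by
    obtain ⟨v, rfl⟩ := hsurj q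
    exact hfib v ▸ c3 v
  have c7' : ∀ U, (G.cut U).Finite → Uᶜ ∈ 𝓕 → (π '' U).Finite := fun U h h' =>
    Set.Finite.of_finite_image (f := Subtype.val) (by
      rw [Set.image_image]
      exact c7 U h h') Subtype.val_injective.injOn
  have hCC : ∀ v w, π w = π v → v ∈ C → w ∈ C := fun v w h hv => by
    by_contra hw
    have := (hπ w v).mp h.symm
    rw [c4 w hw] at this
    exact this hv
  have hX : ∀ X : Finset Q, (π ⁻¹' X)ᶜ ∈ 𝓕 := fun X => by
    have h1 : (⋂ q ∈ X, (π ⁻¹' {q})ᶜ) ∈ 𝓕 := (Filter.biInter_finset_mem X).mpr fun q _ => by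
      obtain ⟨v, rfl⟩ := hsurj q
      exact hfib v ▸ c6 v
    exact Filter.mem_of_superset h1 fun v hv hv' => Set.mem_iInter₂.mp hv _ hv' rfl
  clear_value π
  set G' := G.quo π hq with hG'
  have hs : ∀ e, G'.s e = π (G.s e) := fun _ => rfl
  have ht : ∀ e, G'.t e = π (G.t e) := fun _ => rfl
  have hcut : ∀ U, Subtype.val '' G'.cut U = G.cut (π ⁻¹' U) := G.image_cut_quo π hq
  have hd : ∀ X : Finset Q, G'.d X = (G.cut (π ⁻¹' X)).ncard := fun X => by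
    rw [d_eq, ← hcut, Set.ncard_image_of_injective _ Subtype.val_injective]
  have hXf : ∀ X : Finset Q, (G.cut (π ⁻¹' X)).Finite := fun X =>
    hcut X ▸ (G'.cut_finite X.finite_toSet).image _
  have : Infinite Q := by
    by_contra h
    rw [not_infinite_iff_finite] at h
    have := Fintype.ofFinite Q
    simpa using hX Finset.univ
  have : Countable Q := hsurj.countable
  have hS0f : (π '' Cᶜ).Finite := Set.Subsingleton.finite (by
    rintro _ ⟨a, ha, rfl⟩ _ ⟨b, hb, rfl⟩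
    exact (hπ b a).mpr (c4 b hb ▸ ha))
  set S0 := hS0f.toFinset with hS0
  have hmem0 : ∀ v, π v ∈ S0 ↔ v ∉ C := fun v => by
    rw [hS0, Set.Finite.mem_toFinset]
    exact ⟨fun ⟨w, hw, h⟩ hv => hw (hCC v w h hv), fun h => ⟨v, h, rfl⟩⟩
  obtain ⟨T', h1, h2, h3⟩ := G'.exists_spine_from
    (fun X ⟨q, hq⟩ => by
      obtain ⟨v, rfl⟩ := hsurj q
      rw [hd]
      exact h4 _ (hXf X) ⟨v, hq⟩ (Filter.nonempty_of_mem (hX X)))
    (fun U hU => by
      have h5 : (G.cut (π ⁻¹' U)).Finite := hcut U ▸ hU.image _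
      rcases hdec _ h5 with h | h
      · have := c7' (π ⁻¹' Uᶜ) (by rwa [Set.preimage_compl, cut_compl])
          (by rwa [Set.preimage_compl, compl_compl])
        exact Or.inr (by rwa [Set.image_preimage_eq _ hsurj] at this)
      · have := c7' _ h5 h
        exact Or.inl (by rwa [Set.image_preimage_eq _ hsurj] at this)) S0
    (fun S' hS' => by
      rw [hd, hd, show π ⁻¹' S0 = Cᶜ from Set.ext hmem0, cut_compl, ← G.cut_compl (π ⁻¹' S')]
      refine hmin _ (fun v hv => ?_) (by rw [cut_compl]; exact hXf S') (hX S')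
      by_contra h
      exact hv (hS' ((hmem0 v).mpr h)))
  have c5' : ∀ q : Q, ∃ T, ∀ v ∈ C, π v = q → G.Spine (cls v) T := fun q => by
    obtain ⟨v, rfl⟩ := hsurj q
    by_cases hv : v ∈ C
    · obtain ⟨T, hT⟩ := c5 v hv
      exact ⟨T, fun w _ h => c2 v w ((hπ v w).mp h) ▸ hT⟩
    · exact ⟨∅, fun w hw h => absurd (hCC w v h.symm hw) hv⟩
  choose TT hTT using c5'
  have hsp : ∀ v ∈ C, G.Spine (cls v) (TT (π v)) := fun v hv => hTT _ v hv rfl
  set T : Set E := Subtype.val '' (T' ∩ G'.In (↑S0)ᶜ) ∪ ⋃ v ∈ C, TT (π v) with hT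
  have hTsub : ∀ v ∈ C, TT (π v) ⊆ T := fun v hv =>
    (Set.subset_biUnion_of_mem (u := fun v => TT (π v)) hv).trans Set.subset_union_right
  have hloc : ∀ (B : Set Q) a b, a ∈ C → π a ∈ B → π b = π a →
      G.Conn (T ∩ G.In (π ⁻¹' B)) a b := fun B a b ha hB h =>
    ((hsp a ha).2.1 a (c1 a) b ((hπ a b).mp h)).mono fun e he => Set.mem_inter (hTsub a ha he) (by
      have h5 := (hsp a ha).1 he
      exact ⟨show π _ ∈ B from (hπ _ _).mpr h5.1 ▸ hB, show π _ ∈ B from (hπ _ _).mpr h5.2 ▸ hB⟩)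
  have hlift : ∀ (S : Finset Q), S0 ⊆ S → ∀ a, π a ∉ S → ∀ q, G'.Conn (T' ∩ G'.In (↑S)ᶜ) (π a) q →
      ∀ b, π b = q → G.Conn (T ∩ G.In (π ⁻¹' (↑S)ᶜ)) a b := by
    intro S hS a ha q hq
    have hin : ∀ v, π v ∉ S → v ∈ C := fun v hv => by
      by_contra h
      exact hv (hS ((hmem0 v).mpr h))
    induction hq with
    | refl => exact fun b hb => hloc _ a b (hin a ha) ha hb
    | tail _ hbc ih =>
      obtain ⟨e, he, h⟩ := hbc
      intro b hb
      have h5 : e.1 ∈ T ∩ G.In (π ⁻¹' (↑S)ᶜ) :=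
        ⟨Or.inl ⟨e, ⟨he.1, fun h => he.2.1 (hS h), fun h => he.2.2 (hS h)⟩, rfl⟩, he.2⟩
      rcases h with ⟨h6, h7⟩ | ⟨h6, h7⟩
      · exact (ih _ h6).trans ((Conn.edge h5 (Or.inl ⟨rfl, rfl⟩)).trans
          (hloc _ _ b (hin _ he.2.2) he.2.2 (hb.trans h7.symm)))
      · exact (ih _ h7).trans ((Conn.edge h5 (Or.inr ⟨rfl, rfl⟩)).trans
          (hloc _ _ b (hin _ he.2.1) he.2.1 (hb.trans h6.symm)))
  have hlast : ∀ U, (G.In C ∩ G.cut U).Finite → ∀ a ∈ C, a ∈ U →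
      (∀ v ∈ C, ∀ w, π w = π v → v ∈ U → w ∈ U) → (U ∩ C)ᶜ ∈ 𝓕 →
      ∃ e ∈ G.In C ∩ G.cut U, e ∉ T := by
    intro U hU a ha haU hns hF
    have h5 := c7' (U ∩ C) ((hU.union hC).subset (by
      intro e he
      simp only [cut, In, Set.mem_ofPred_eq, Set.mem_inter_iff, Set.mem_union] at he ⊢
      tauto)) hF
    obtain ⟨e, ⟨h6, h7⟩, h8⟩ := h1 h5.toFinset ⟨π a, h5.mem_toFinset.mpr ⟨a, ⟨haU, ha⟩, rfl⟩⟩ (by
      intro q hq h
      obtain ⟨v, hv, rfl⟩ := h5.mem_toFinset.mp hq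
      exact (hmem0 v).mp h hv.2)
    have h9 : G.s e ∈ C := not_not.mp (mt (hmem0 _).mpr h7.1)
    have h10 : G.t e ∈ C := not_not.mp (mt (hmem0 _).mpr h7.2)
    have h11 : ∀ v ∈ C, π v ∈ (h5.toFinset : Set Q) ↔ v ∈ U := fun v hv => by
      rw [Set.Finite.coe_toFinset]
      exact ⟨fun ⟨w, hw, h⟩ => hns w hw.2 v h.symm hw.1, fun h => ⟨v, ⟨h, hv⟩, rfl⟩⟩
    refine ⟨e, ⟨⟨h9, h10⟩, fun h => h8 ?_⟩, ?_⟩
    · rw [hs, ht, h11 _ h9, h11 _ h10]
      exact h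
    · rintro (⟨e', h, h'⟩ | h)
      · exact h6 (Subtype.val_injective h' ▸ h.1)
      · obtain ⟨v, hv, h⟩ := Set.mem_iUnion₂.mp h
        have h12 := (hsp v hv).1 h
        exact e.2 (((hπ _ _).mpr h12.1).trans ((hπ _ _).mpr h12.2).symm)
  refine ⟨T, ?_, fun a ha b hb => ?_, fun U hU => ?_, fun U hU a ha b hb haU hbU => ?_⟩
  · rintro e (⟨e, he, rfl⟩ | h)
    · exact ⟨not_not.mp (mt (hmem0 _).mpr he.2.1), not_not.mp (mt (hmem0 _).mpr he.2.2)⟩
    · obtain ⟨v, hv, h⟩ := Set.mem_iUnion₂.mp h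
      have h12 := (hsp v hv).1 h
      exact ⟨hCC v _ ((hπ _ _).mpr h12.1) hv, hCC v _ ((hπ _ _).mpr h12.2) hv⟩
  · have h5 := fun h => (hmem0 a).mp h ha
    exact (hlift S0 subset_rfl a h5 _ (h2 _ _ h5 fun h => (hmem0 b).mp h hb) b rfl).mono
      Set.inter_subset_left
  · obtain ⟨S, h5, h6, h7⟩ := h3 (hU.image fun e => π (G.s e)).toFinset
    have h8 : ∀ a b, π a ∉ S → π b ∉ S → (a ∈ U ↔ b ∈ U) := fun a b ha hb =>
      (hlift S h6 a ha _ (h7 _ _ ha hb) b rfl).iff_mem fun e he he' =>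
        he.2.1 (h5 ((Set.Finite.mem_toFinset _).mpr ⟨e, ⟨he.1, he'⟩, rfl⟩))
    have h9 : ∀ q : Q, {e | e ∈ G.In C ∩ G.cut U ∧ π (G.s e) = q ∧ π (G.t e) = q}.Finite := by
      intro q
      obtain ⟨v, rfl⟩ := hsurj q
      by_cases hv : v ∈ C
      · exact ((hsp v hv).2.2.1 U (hU.subset (Set.inter_subset_inter_left _ (hTsub v hv)))).subset
          fun e he => ⟨⟨(hπ _ _).mp he.2.1, (hπ _ _).mp he.2.2⟩, he.1.2⟩
      · exact Set.finite_empty.subset fun e he => hv (hCC _ v he.2.1.symm he.1.1.1)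
    refine (((G'.inc_finite S.finite_toSet).image Subtype.val).union
      (S.finite_toSet.biUnion fun q _ => h9 q)).subset fun e he => ?_
    have h10 : π (G.s e) ∈ S ∨ π (G.t e) ∈ S := by
      by_contra h
      rw [not_or] at h
      exact he.2 (h8 _ _ h.1 h.2)
    by_cases h : π (G.s e) = π (G.t e)
    · exact Or.inr (Set.mem_biUnion (x := π (G.s e)) (h10.elim id fun h' => h ▸ h')
        ⟨he, rfl, h.symm⟩)
    · exact Or.inl ⟨⟨e, h⟩, h10, rfl⟩
  · by_cases hns : ∀ v ∈ C, ∀ w, π w = π v → v ∈ U → w ∈ U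
    · have h5 : (G.cut (U ∩ C)).Finite := (hU.union hC).subset (by
        intro e he
        simp only [cut, In, Set.mem_ofPred_eq, Set.mem_inter_iff, Set.mem_union] at he ⊢
        tauto)
      rcases hdec _ h5 with h | h
      · have := hlast Uᶜ (by rwa [cut_compl]) b hb hbU
          (fun v hv w h hvU hwU => hvU (hns w (hCC v w h hv) v h.symm hwU))
          (Filter.mem_of_superset h fun v hv hv' => hv'.1 hv.1)
        rwa [cut_compl] at this
      · exact hlast U hU a ha haU hns h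
    · push Not at hns
      obtain ⟨v, hv, w, h, hvU, hwU⟩ := hns
      have h5 : G.In (cls v) ⊆ G.In C := G.In_mono fun u hu => hCC v u ((hπ _ _).mpr hu) hv
      obtain ⟨e, he, h6⟩ := (hsp v hv).2.2.2 U (hU.subset (Set.inter_subset_inter_left _ h5))
        v (c1 v) w ((hπ _ _).mp h) hvU hwU
      refine ⟨e, ⟨h5 he.1, he.2⟩, ?_⟩
      rintro (⟨e', -, rfl⟩ | h7)
      · exact e'.2 (((hπ _ _).mpr he.1.1).trans ((hπ _ _).mpr he.1.2).symm)
      · obtain ⟨u, hu, h7⟩ := Set.mem_iUnion₂.mp h7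
        have h8 : π u = π v := ((hπ _ _).mpr ((hsp u hu).1 h7).1).symm.trans ((hπ _ _).mpr he.1.1)
        exact h6 (h8 ▸ h7)

end MG

end Pool.Agent.MP_7f38c2_co.H10
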