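import Pool.Agent.MP_7f38c2_co.H94.Ends

/-! Parametrising a linear order with successors and predecessors by a real interval. -/

namespace Pool.Agent.MP_7f38c2_co.H94

open Classical

variable {W : Type*}

structure Dat (W : Type*) [LinearOrder W] where
  b : W
  t : W
  nx : W → W
  pr : W → W
  l : W → ℝ
  hb : ∀ x, b ≤ x
  ht : ∀ x, x ≤ t
  hnx : ∀ x, x ≠ t → x ⋖ nx x
  hnt : nx t = b
  hpr : ∀ y, y ≠ b → pr y ⋖ y
  hpb : pr b = t
  pos : ∀ x, 0 < l x
  sum : Summable l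
  inf : Infinite W

namespace Dat

variable [LinearOrder W] (D : Dat W)

noncomputable def mu (A : Set W) : ℝ := ∑' y, A.indicator D.l y

lemma mu_le {A : Set W} {c : ℝ} (h : ∀ F : Finset W, ↑F ⊆ A → ∑ y ∈ F, D.l y ≤ c) :
    D.mu A ≤ c := by
  refine (D.sum.indicator A).tsum_le_of_sum_le fun s => ?_
  rw [Finset.sum_indicator_eq_sum_filter]
  exact h _ fun y hy => (Finset.mem_filter.mp hy).2

lemma le_mu {A : Set W} {F : Finset W} (h : ↑F ⊆ A) : ∑ y ∈ F, D.l y ≤ D.mu A := by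
  refine le_trans (le_of_eq ?_) ((D.sum.indicator A).sum_le_tsum F fun y _ =>
    Set.indicator_nonneg (fun y _ => (D.pos y).le) y)
  exact Finset.sum_congr rfl fun y hy => (Set.indicator_of_mem (h hy) _).symm

lemma mu_mono {A B : Set W} (h : A ⊆ B) : D.mu A ≤ D.mu B :=
  D.mu_le fun _ hF => D.le_mu (hF.trans h)

lemma mu_union {A B : Set W} (h : Disjoint A B) : D.mu (A ∪ B) = D.mu A + D.mu B := by
  unfold mu
  rw [Set.indicator_union_of_disjoint h]
  exact (D.sum.indicator A).tsum_add (D.sum.indicator B)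

lemma mu_single (x : W) : D.mu {x} = D.l x := by
  unfold mu
  rw [tsum_eq_single x fun y hy => Set.indicator_of_notMem (by simpa using hy) _]
  simp

lemma mu_empty : D.mu ∅ = 0 := by simp [mu]

noncomputable def ph (x : W) : ℝ := D.mu (Set.Iio x)

noncomputable def tot : ℝ := D.mu Set.univ

lemma ph_add (x : W) : D.ph x + D.l x = D.mu (Set.Iic x) := by
  rw [← Set.Iio_union_right, D.mu_union (by simp), mu_single, ph]

lemma ph_le {x y : W} (h : x < y) : D.ph x + D.l x ≤ D.ph y := by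
  rw [ph_add]
  exact D.mu_mono fun z hz => lt_of_le_of_lt hz h

lemma ph_mono {x y : W} (h : x ≤ y) : D.ph x ≤ D.ph y :=
  D.mu_mono fun _ hz => lt_of_lt_of_le hz h

lemma ph_cov {x y : W} (h : x ⋖ y) : D.ph y = D.ph x + D.l x := by
  rw [ph_add, ph, h.Iio_eq]

lemma ph_b : D.ph D.b = 0 := by
  rw [ph, ← D.mu_empty]
  congr 1
  exact Set.eq_empty_of_forall_notMem fun x hx => absurd (D.hb x) (not_le.mpr hx)

lemma ph_t : D.ph D.t + D.l D.t = D.tot := by
  rw [ph_add, tot]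
  congr 1
  exact Set.eq_univ_of_forall D.ht

lemma ph_nonneg (x : W) : 0 ≤ D.ph x := D.ph_b ▸ D.ph_mono (D.hb x)

lemma ph_lt_tot (x : W) : D.ph x < D.tot := by
  have := D.ph_mono (D.ht x)
  have := D.ph_t
  have := D.pos D.t
  linarith

lemma tot_pos : 0 < D.tot := D.ph_b ▸ D.ph_lt_tot D.b

lemma not_cov : ¬ D.b ⋖ D.t := by
  intro h
  have := D.inf
  refine Set.infinite_univ (α := W) ((Set.toFinite {D.b, D.t}).subset fun x _ => ?_)
  exact h.eq_or_eq (D.hb x) (D.ht x)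

lemma b_lt_t : D.b < D.t := by
  have := D.inf
  refine lt_of_le_of_ne (D.hb _) fun h => ?_
  refine Set.infinite_univ (α := W) ((Set.toFinite {D.b}).subset fun x _ => ?_)
  exact le_antisymm (h ▸ D.ht x) (D.hb x)

lemma pr_nx (x : W) : D.pr (D.nx x) = x := by
  by_cases h : x = D.t
  · rw [h, D.hnt, D.hpb]
  · have h1 := D.hnx x h
    exact (D.hpr _ fun h2 => absurd (D.hb x) (not_le.mpr (h2 ▸ h1.lt))).unique_left h1

lemma nx_pr (x : W) : D.nx (D.pr x) = x := by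
  by_cases h : x = D.b
  · rw [h, D.hpb, D.hnt]
  · have h1 := D.hpr x h
    exact (D.hnx _ fun h2 => absurd (D.ht x) (not_le.mpr (h2 ▸ h1.lt))).unique_right h1

lemma nx_ne (x : W) : D.nx x ≠ x := by
  by_cases h : x = D.t
  · rw [h, D.hnt]
    exact D.b_lt_t.ne
  · exact (D.hnx x h).lt.ne'

lemma nx_nx_ne (x : W) : D.nx (D.nx x) ≠ x := by
  intro h0
  by_cases h : x = D.t
  · rw [h, D.hnt] at h0
    exact D.not_cov (h0 ▸ D.hnx _ D.b_lt_t.ne)
  · have h1 := D.hnx x h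
    by_cases h2 : D.nx x = D.t
    · rw [h2, D.hnt] at h0
      rw [h2, ← h0] at h1
      exact D.not_cov h1
    · exact absurd (h1.lt.trans (D.hnx _ h2).lt) (by rw [h0]; exact lt_irrefl _)

noncomputable def cl (x : W) (s : ℝ) : ℝ := max 0 (min 1 ((s - D.ph x) / D.l x))

lemma cl_zero {x : W} {s : ℝ} (h : s ≤ D.ph x) : D.cl x s = 0 :=
  max_eq_left ((min_le_right _ _).trans (div_nonpos_of_nonpos_of_nonneg (by linarith) (D.pos x).le))

lemma cl_one {x : W} {s : ℝ} (h : D.ph x + D.l x ≤ s) : D.cl x s = 1 := by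
  rw [cl, min_eq_left ((one_le_div (D.pos x)).mpr (by linarith))]
  simp

lemma cl_mid {x : W} {s : ℝ} (h : D.ph x ≤ s) (h' : s ≤ D.ph x + D.l x) :
    D.cl x s = (s - D.ph x) / D.l x := by
  rw [cl, min_eq_right ((div_le_one (D.pos x)).mpr (by linarith)),
    max_eq_right (div_nonneg (by linarith) (D.pos x).le)]

lemma cl_nonneg (x : W) (s : ℝ) : 0 ≤ D.cl x s := le_max_left _ _

lemma cl_le_one (x : W) (s : ℝ) : D.cl x s ≤ 1 := max_le zero_le_one (min_le_left _ _)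

noncomputable def tau (s : ℝ) (v : W) : ℝ :=
  D.cl (D.pr v) s - D.cl v s + if v = D.b then 1 else 0

lemma continuous_tau : Continuous D.tau := by
  refine continuous_pi fun v => ?_
  unfold tau cl
  fun_prop

lemma tau_edge {x : W} {s : ℝ} (h : D.ph x ≤ s) (h' : s ≤ D.ph x + D.l x) :
    D.tau s = seg (D.nx x) x (D.cl x s) := by
  have h1 : ∀ y, y < x → D.cl y s = 1 := fun y hy => D.cl_one ((D.ph_le hy).trans h)
  have h2 : ∀ y, x < y → D.cl y s = 0 := fun y hy => D.cl_zero (h'.trans (D.ph_le hy))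
  funext v
  simp only [tau, seg]
  by_cases hvx : v = x
  · subst hvx
    rw [if_neg (D.nx_ne v).symm, if_pos rfl]
    by_cases hb : v = D.b
    · rw [if_pos hb, h2 (D.pr v) (by rw [hb, D.hpb]; exact D.b_lt_t)]
      ring
    · rw [if_neg hb, h1 _ (D.hpr v hb).lt]
      ring
  rw [if_neg hvx]
  by_cases hvn : v = D.nx x
  · subst hvn
    rw [if_pos rfl, pr_nx]
    by_cases ht : x = D.t
    · have h3 : D.nx x = D.b := by rw [ht, D.hnt]
      rw [if_pos h3, h1 (D.nx x) (by rw [h3, ht]; exact D.b_lt_t)]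
      ring
    · have h3 := (D.hnx x ht).lt
      rw [if_neg fun h4 : D.nx x = D.b => absurd (D.hb x) (not_le.mpr (h4 ▸ h3)), h2 _ h3]
      ring
  rw [if_neg hvn]
  have h3 : D.pr v ≠ x := fun h => hvn (by rw [← h, nx_pr])
  by_cases hb : v = D.b
  · rw [if_pos hb, h1 v (lt_of_le_of_ne (hb ▸ D.hb x) hvx),
      h2 (D.pr v) (lt_of_le_of_ne (by rw [hb, D.hpb]; exact D.ht x) h3.symm)]
    ring
  · rw [if_neg hb]
    have h4 := D.hpr v hb
    rcases lt_or_gt_of_ne hvx with h5 | h5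
    · rw [h1 v h5, h1 _ (h4.lt.trans h5)]
      ring
    · rw [h2 v h5, h2 _ (lt_of_le_of_ne (h4.le_of_lt h5) h3.symm)]
      ring

def IsEdge (s : ℝ) : Prop := ∃ x, D.ph x ≤ s ∧ s ≤ D.ph x + D.l x

def Gap (s : ℝ) : Prop := 0 ≤ s ∧ s ≤ D.tot ∧ ¬ D.IsEdge s

variable {D}

lemma Gap.lt {s : ℝ} (h : D.Gap s) {x : W} (hx : D.ph x ≤ s) : D.ph x + D.l x < s :=
  not_le.mp fun h' => h.2.2 ⟨x, hx, h'⟩

lemma Gap.b_le {s : ℝ} (h : D.Gap s) : D.ph D.b ≤ s := D.ph_b ▸ h.1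

lemma Gap.lt_t {s : ℝ} (h : D.Gap s) : s < D.ph D.t :=
  not_le.mp fun h' => absurd (h.lt h') (not_lt.mpr (D.ph_t ▸ h.2.1))

lemma Gap.up {s : ℝ} (h : D.Gap s) {x : W} (hx : D.ph x ≤ s) : x < D.nx x ∧ D.ph (D.nx x) ≤ s := by
  have h1 := D.hnx x fun h2 => absurd h.lt_t (not_lt.mpr (h2 ▸ hx))
  exact ⟨h1.lt, D.ph_cov h1 ▸ (h.lt hx).le⟩

lemma Gap.down {s : ℝ} (h : D.Gap s) {x : W} (hx : s < D.ph x) :
    D.pr x < x ∧ s < D.ph (D.pr x) := by
  have h1 := D.hpr x fun h2 => absurd h.b_le (not_le.mpr (h2 ▸ hx))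
  refine ⟨h1.lt, not_le.mp fun h2 => ?_⟩
  have := h.lt h2
  have := D.ph_cov h1
  linarith

lemma Gap.tau {s : ℝ} (h : D.Gap s) (v : W) : D.tau s v = 0 := by
  unfold Dat.tau
  by_cases hb : v = D.b
  · rw [if_pos hb, hb, D.hpb, D.cl_zero h.lt_t.le, D.cl_one (h.lt h.b_le).le]
    ring
  rw [if_neg hb]
  rcases le_or_gt (D.ph v) s with h1 | h1
  · rw [D.cl_one (h.lt h1).le, D.cl_one (h.lt ((D.ph_mono (D.hpr v hb).le).trans h1)).le]
    ring
  · rw [D.cl_zero h1.le, D.cl_zero (h.down h1).2.le]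
    ring

lemma lt_of_ph {s : ℝ} {x y : W} (hx : D.ph x ≤ s) (hy : s < D.ph y) : x < y :=
  not_le.mp fun h => absurd ((D.ph_mono h).trans hx) (not_le.mpr hy)

lemma Gap.eq_mu {s : ℝ} (h : D.Gap s) : s = D.mu {x | D.ph x ≤ s} := by
  apply le_antisymm
  · have h1 : D.mu {x | D.ph x ≤ s}ᶜ ≤ D.tot - s := by
      refine D.mu_le fun F hF => ?_
      rcases F.eq_empty_or_nonempty with rfl | hne
      · simpa using h.2.1
      · have h2 : s < D.ph (F.min' hne) := not_le.mp (hF (F.min'_mem hne))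
        have h3 : ∑ y ∈ F, D.l y ≤ D.mu (Set.Iio (F.min' hne))ᶜ :=
          D.le_mu fun y hy => not_lt.mpr (F.min'_le y hy)
        have h4 := D.mu_union (disjoint_compl_right (a := Set.Iio (F.min' hne)))
        rw [Set.union_compl_self] at h4
        unfold ph at h2
        unfold tot
        linarith
    have h4 := D.mu_union (disjoint_compl_right (a := {x | D.ph x ≤ s}))
    rw [Set.union_compl_self] at h4
    unfold tot at h1
    linarith
  · refine D.mu_le fun F hF => ?_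
    rcases F.eq_empty_or_nonempty with rfl | hne
    · simpa using h.1
    · have h2 := h.lt (hF (F.max'_mem hne))
      rw [ph_add] at h2
      exact (D.le_mu fun y hy => F.le_max' y hy).trans h2.le

lemma Gap.exists_between {s s' : ℝ} (h : D.Gap s) (h' : D.Gap s') (hs : s < s') :
    ∃ z, s < D.ph z ∧ D.ph z ≤ s' := by
  by_contra hc
  push Not at hc
  have h1 : D.mu {x | D.ph x ≤ s'} ≤ D.mu {x | D.ph x ≤ s} :=
    D.mu_mono fun x hx => not_lt.mp fun h2 => absurd hx (not_le.mpr (hc x h2))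
  rw [← h.eq_mu, ← h'.eq_mu] at h1
  linarith

lemma IsEdge.half {s : ℝ} (h : D.IsEdge s) (hs : s < D.tot) :
    ∃ x, D.ph x ≤ s ∧ s < D.ph x + D.l x := by
  obtain ⟨x, h1, h2⟩ := h
  rcases h2.lt_or_eq with h2 | h2
  · exact ⟨x, h1, h2⟩
  · have h3 := D.ph_cov (D.hnx x fun h4 => by
      rw [h4, D.ph_t] at h2
      linarith)
    exact ⟨D.nx x, by linarith, by linarith [D.pos (D.nx x)]⟩

lemma tau_inj {s s' : ℝ} (h : D.IsEdge s) (hs : s < D.tot) (h' : D.IsEdge s') (hs' : s' < D.tot)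
    (he : D.tau s = D.tau s') : s = s' := by
  obtain ⟨x, h1, h2⟩ := h.half hs
  obtain ⟨y, h3, h4⟩ := h'.half hs'
  rw [D.tau_edge h1 h2.le, D.tau_edge h3 h4.le, D.cl_mid h1 h2.le, D.cl_mid h3 h4.le] at he
  have h5 : (s - D.ph x) / D.l x < 1 := (div_lt_one (D.pos x)).mpr (by linarith)
  have h6 : (s' - D.ph y) / D.l y < 1 := (div_lt_one (D.pos y)).mpr (by linarith)
  have h7 := congrFun he x
  have h8 := congrFun he y
  simp only [seg, if_true, if_neg (D.nx_ne x).symm, if_neg (D.nx_ne y).symm] at h7 h8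
  by_cases hxy : x = y
  · subst hxy
    rw [if_neg (D.nx_ne x).symm, if_pos rfl] at h7
    have h9 : (s - D.ph x) / D.l x = (s' - D.ph x) / D.l x := by linarith
    rw [div_left_inj' (D.pos x).ne'] at h9
    linarith
  · exfalso
    rw [if_neg hxy] at h7
    rw [if_neg (Ne.symm hxy)] at h8
    have h9 : x = D.nx y := by
      by_contra h9
      rw [if_neg h9] at h7
      linarith
    have h10 : y = D.nx x := by
      by_contra h10
      rw [if_neg h10] at h8
      linarith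
    exact D.nx_nx_ne x (by rw [← h10, ← h9])

lemma IsEdge.exists_pos {s : ℝ} (h : D.IsEdge s) : ∃ v, 0 < D.tau s v := by
  obtain ⟨x, h1, h2⟩ := h
  rw [D.tau_edge h1 h2]
  rcases (D.cl_nonneg x s).lt_or_eq with h3 | h3
  · exact ⟨D.nx x, by simpa [seg, D.nx_ne x] using h3⟩
  · exact ⟨x, by simp [seg, (D.nx_ne x).symm, ← h3]⟩

lemma isEdge_of_pos {s : ℝ} (h0 : 0 ≤ s) (h1 : s ≤ D.tot) {v : W} (h : 0 < D.tau s v) :
    D.IsEdge s := by
  by_contra hc
  rw [Gap.tau ⟨h0, h1, hc⟩] at h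
  exact lt_irrefl _ h

end Dat

end Pool.Agent.MP_7f38c2_co.H94
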