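import Pool.Agent.MP_7f38c2_co.H94.Glue

/-! Countably many ends: recursion over regions, and the parity correction. -/

namespace Pool.Agent.MP_7f38c2_co.H10

open Classical

namespace MG

variable {V E Ω : Type*}

/-- an abstract system of countably many ends -/
structure EndSys (G : MG V E) (Ω : Type*) where
  F : Ω → Filter V
  idx : Ω → ℕ
  inj : Function.Injective idx
  ne : ∀ ω, (F ω).NeBot
  dec : ∀ ω U, (G.cut U).Finite → U ∈ F ω ∨ Uᶜ ∈ F ω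
  cof : ∀ ω v, {v}ᶜ ∈ F ω
  sep : ∀ ω ω', ω ≠ ω' → ∃ U, (G.cut U).Finite ∧ U ∈ F ω ∧ Uᶜ ∈ F ω'
  cpt : ∀ 𝒰 : Ultrafilter V, (𝒰 : Filter V) ≤ Filter.cofinite →
    ∃ ω, ∀ U, (G.cut U).Finite → U ∈ F ω → U ∈ 𝒰

namespace EndSys

variable {G : MG V E} (Z : G.EndSys Ω)

def MinCut (C : Set V) (ω : Ω) : Prop :=
  ∀ D ⊆ C, (G.cut D).Finite → D ∈ Z.F ω → (G.cut C).ncard ≤ (G.cut D).ncard

def Reg (C : Set V) (ω : Ω) : Prop :=
  (G.cut C).Finite ∧ C ∈ Z.F ω ∧ (∀ ω', C ∈ Z.F ω' → Z.idx ω ≤ Z.idx ω') ∧ Z.MinCut C ω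

lemma exists_minCut {A : Set V} {ω : Ω} (hA : (G.cut A).Finite) (h : A ∈ Z.F ω) :
    ∃ D ⊆ A, (G.cut D).Finite ∧ D ∈ Z.F ω ∧ Z.MinCut D ω := by
  have hex : ∃ n, ∃ D ⊆ A, (G.cut D).Finite ∧ D ∈ Z.F ω ∧ (G.cut D).ncard = n :=
    ⟨_, A, subset_rfl, hA, h, rfl⟩
  obtain ⟨D, h1, h2, h3, h4⟩ := Nat.find_spec hex
  exact ⟨D, h1, h2, h3, fun D' h5 h6 h7 => h4 ▸ Nat.find_min' hex ⟨D', h5.trans h1, h6, h7, rfl⟩⟩

lemma not_both {ω : Ω} {A B : Set V} (h : A ∈ Z.F ω) (h' : B ∈ Z.F ω) (hd : Disjoint A B) :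
    False := by
  have := Z.ne ω
  obtain ⟨v, h1, h2⟩ := Filter.nonempty_of_mem (Filter.inter_mem h h')
  exact Set.disjoint_left.mp hd h1 h2

lemma pick (ω : Ω) (k : ℕ) (A : Set V) : ∃ D ⊆ A, (G.cut A).Finite →
    (G.cut D).Finite ∧ Dᶜ ∈ Z.F ω ∧ (D = ∅ ∨ ∃ ω', Z.idx ω' = k ∧ D ∈ Z.F ω' ∧ Z.MinCut D ω') ∧
      ∀ ω', Z.idx ω' = k → ω' ≠ ω → A ∈ Z.F ω' → D ∈ Z.F ω' := by
  by_cases h : (G.cut A).Finite ∧ ∃ ω', Z.idx ω' = k ∧ ω' ≠ ω ∧ A ∈ Z.F ω'
  · obtain ⟨hA, ω', h1, h2, h3⟩ := h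
    obtain ⟨U, h4, h5, h6⟩ := Z.sep ω' ω h2
    obtain ⟨D, h7, h8, h9, h10⟩ := Z.exists_minCut (cut_inter_finite hA h4) (Filter.inter_mem h3 h5)
    refine ⟨D, h7.trans Set.inter_subset_left, fun _ => ⟨h8, Filter.mem_of_superset h6
      (Set.compl_subset_compl.mpr (h7.trans Set.inter_subset_right)), Or.inr ⟨ω', h1, h9, h10⟩,
      fun ω'' h11 _ _ => Z.inj (h1.trans h11.symm) ▸ h9⟩⟩
  · exact ⟨∅, Set.empty_subset _, fun hA => ⟨by simp [cut], by simp, Or.inl rfl,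
      fun ω' h1 h2 h3 => absurd ⟨hA, ω', h1, h2, h3⟩ h⟩⟩

lemma decomp {C : Set V} {ω : Ω} (h : Z.Reg C ω) : ∃ D : ℕ → Set V, (∀ k, D k ⊆ C) ∧
    (∀ j k, j ≠ k → Disjoint (D j) (D k)) ∧ (∀ k, (G.cut (D k)).Finite ∧ (D k)ᶜ ∈ Z.F ω) ∧
    (∀ k, D k = ∅ ∨ ∃ ω', Z.Reg (D k) ω' ∧ Z.idx ω < Z.idx ω') ∧
    ∀ ω', ω' ≠ ω → C ∈ Z.F ω' → ∃ k, D k ∈ Z.F ω' := by
  choose p hp1 hp2 using Z.pick ω
  let A : ℕ → Set V := fun n => Nat.rec C (fun n A => A ∩ (p n A)ᶜ) n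
  have hA0 : A 0 = C := rfl
  have hA : ∀ n, A (n + 1) = A n ∩ (p n (A n))ᶜ := fun _ => rfl
  clear_value A
  have h1 : ∀ n, (G.cut (A n)).Finite := fun n => by
    induction n with
    | zero => exact hA0 ▸ h.1
    | succ n ih => exact hA n ▸ cut_inter_finite ih (by rw [cut_compl]; exact (hp2 n _ ih).1)
  have h2 : Antitone A := antitone_nat_of_succ_le fun n => hA n ▸ Set.inter_subset_left
  have h3 : ∀ j k, j < k → Disjoint (p j (A j)) (p k (A k)) := fun j k hjk =>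
    Set.disjoint_left.mpr fun v hv hv' => (hA j ▸ h2 hjk (hp1 k _ hv') :
      v ∈ A j ∩ (p j (A j))ᶜ).2 hv
  have h4 : ∀ k, p k (A k) ⊆ C := fun k => (hp1 k _).trans (hA0 ▸ h2 (Nat.zero_le k))
  have h5 : ∀ k ω', p k (A k) ∈ Z.F ω' → ω' ≠ ω := by
    rintro k _ h5 rfl
    exact Z.not_both h5 (hp2 k _ (h1 k)).2.1 disjoint_compl_right
  refine ⟨fun k => p k (A k), h4, fun j k hjk => ?_,
    fun k => ⟨(hp2 k _ (h1 k)).1, (hp2 k _ (h1 k)).2.1⟩, fun k => ?_, fun ω' h6 h7 => ?_⟩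
  · rcases lt_or_gt_of_ne hjk with h | h
    · exact h3 j k h
    · exact (h3 k j h).symm
  · refine (hp2 k _ (h1 k)).2.2.1.imp_right fun ⟨ω', h6, h7, h8⟩ =>
      ⟨ω', ⟨(hp2 k _ (h1 k)).1, h7, fun ω'' h9 => ?_, h8⟩, lt_of_le_of_ne
        (h.2.2.1 ω' (Filter.mem_of_superset h7 (h4 k))) fun h => h5 k ω' h7 (Z.inj h).symm⟩
    by_contra hc
    rw [h6, not_le] at hc
    exact Z.not_both ((hp2 _ _ (h1 _)).2.2.2 ω'' rfl (h5 k ω'' h9)
      (Filter.mem_of_superset h9 ((hp1 k _).trans (h2 hc.le)))) h9 (h3 _ k hc)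
  · by_contra hc
    push Not at hc
    have h8 : ∀ n, A n ∈ Z.F ω' := fun n => by
      induction n with
      | zero => exact hA0 ▸ h7
      | succ n ih =>
        exact hA n ▸ Filter.inter_mem ih ((Z.dec ω' _ (hp2 n _ (h1 n)).1).resolve_left (hc n))
    exact hc _ ((hp2 _ _ (h1 _)).2.2.2 ω' rfl h6 (h8 _))

variable [Countable V]
  (h4 : ∀ U : Set V, (G.cut U).Finite → U.Nonempty → Uᶜ.Nonempty → 4 ≤ (G.cut U).ncard)

include h4

lemma descend {C : Set V} {ω : Ω} (h : Z.Reg C ω) (hn : ¬ ∃ T, G.Spine C T) :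
    ∃ D ω', Z.Reg D ω' ∧ (¬ ∃ T, G.Spine D T) ∧ D ⊆ C ∧ Z.idx ω < Z.idx ω' := by
  by_contra hc
  obtain ⟨D, h1, h2, h3, h5, h6⟩ := Z.decomp h
  have := Z.ne ω
  let cls : V → Set V := fun v => if v ∈ C then if h : ∃ k, v ∈ D k then D h.choose else {v} else Cᶜ
  have e1 : ∀ v, v ∉ C → cls v = Cᶜ := fun v hv => if_neg hv
  have e2 : ∀ k, ∀ v ∈ D k, cls v = D k := fun k v hv => by
    have h7 : ∃ k, v ∈ D k := ⟨k, hv⟩
    simp only [cls, if_pos (h1 k hv), dif_pos h7]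
    by_contra h8
    exact Set.disjoint_left.mp (h2 _ k fun h => h8 (by rw [h])) h7.choose_spec hv
  have e3 : ∀ v, v ∉ C ∨ (∃ k, v ∈ D k) ∨ cls v = {v} := fun v => by
    by_cases h7 : v ∈ C
    · by_cases h8 : ∃ k, v ∈ D k
      · exact Or.inr (Or.inl h8)
      · exact Or.inr (Or.inr (by simp only [cls, if_pos h7, dif_neg h8]))
    · exact Or.inl h7
  clear_value cls
  have c1 : ∀ v, v ∈ cls v := fun v => by
    rcases e3 v with h7 | ⟨k, h7⟩ | h7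
    · exact e1 v h7 ▸ h7
    · exact e2 k v h7 ▸ h7
    · exact h7 ▸ rfl
  have c2 : ∀ v, ∀ w ∈ cls v, cls w = cls v := fun v w hw => by
    rcases e3 v with h7 | ⟨k, h7⟩ | h7
    · rw [e1 v h7] at hw ⊢
      exact e1 w hw
    · rw [e2 k v h7] at hw ⊢
      exact e2 k w hw
    · rw [h7] at hw
      rw [hw]
  refine hn (G.glue h4 (Z.F ω) (Z.dec ω) h.1 h.2.2.2 cls c1 c2 (fun v => ?_) e1 (fun v hv => ?_)
    (fun v => ?_) fun U hU hU' => ?_)
  · rcases e3 v with h7 | ⟨k, h7⟩ | h7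
    · rw [e1 v h7, cut_compl]
      exact h.1
    · exact e2 k v h7 ▸ (h3 k).1
    · exact h7 ▸ G.cut_finite (Set.finite_singleton v)
  · rcases e3 v with h7 | ⟨k, h7⟩ | h7
    · exact absurd hv h7
    · rw [e2 k v h7]
      obtain ⟨ω', h8, h9⟩ := (h5 k).resolve_left fun h => by simp [h] at h7
      by_contra h10
      exact hc ⟨D k, ω', h8, h10, h1 k, h9⟩
    · exact ⟨∅, h7 ▸ G.spine_single v⟩
  · rcases e3 v with h7 | ⟨k, h7⟩ | h7
    · rw [e1 v h7, compl_compl]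
      exact h.2.1
    · exact e2 k v h7 ▸ (h3 k).2
    · exact h7 ▸ Z.cof ω v
  · by_contra hinf
    have hne : (Filter.comap cls Filter.cofinite ⊓ Filter.principal U).NeBot := by
      refine Filter.inf_principal_neBot_iff.mpr fun B ⟨B', h7, h8⟩ => ?_
      obtain ⟨_, ⟨v, hv, rfl⟩, h9⟩ := Set.Infinite.exists_notMem_finite hinf h7
      exact ⟨v, h8 (not_not.mp h9), hv⟩
    let 𝒰 := Ultrafilter.of (Filter.comap cls Filter.cofinite ⊓ Filter.principal U)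
    have hle := Ultrafilter.of_le (Filter.comap cls Filter.cofinite ⊓ Filter.principal U)
    have h7 : ∀ (X B : Set V), (∀ v ∈ B, cls v = X) → B ∉ 𝒰 := fun X B hB =>
      Ultrafilter.compl_mem_iff_notMem.mp (hle (Filter.mem_inf_of_left
        ⟨{X}ᶜ, (Set.finite_singleton X).compl_mem_cofinite, fun v hv hv' => hv (hB v hv')⟩))
    obtain ⟨ω', h8⟩ := Z.cpt 𝒰 (Filter.le_cofinite_iff_compl_singleton_mem.mpr fun v =>
      Ultrafilter.compl_mem_iff_notMem.mpr (h7 (cls v) {v} fun w hw => by rw [hw]))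
    obtain ⟨k, hk⟩ := h6 ω' (by
      rintro rfl
      exact Ultrafilter.compl_mem_iff_notMem.mp (h8 _ (by rwa [cut_compl]) hU')
        (hle (Filter.mem_inf_of_right (Filter.mem_principal_self U))))
      ((Z.dec ω' C h.1).resolve_right fun h9 =>
        h7 Cᶜ Cᶜ e1 (h8 _ (by rw [cut_compl]; exact h.1) h9))
    exact h7 (D k) (D k) (e2 k) (h8 _ (h3 k).1 hk)

theorem spine_of_reg {C : Set V} {ω : Ω} (h : Z.Reg C ω) : ∃ T, G.Spine C T := by
  by_contra hn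
  let St := {p : Set V × Ω // Z.Reg p.1 p.2 ∧ ¬ ∃ T, G.Spine p.1 T}
  have hstep : ∀ p : St, ∃ q : St, q.1.1 ⊆ p.1.1 ∧ Z.idx p.1.2 < Z.idx q.1.2 := fun p => by
    obtain ⟨D, ω', h1, h2, h3, h5⟩ := Z.descend h4 p.2.1 p.2.2
    exact ⟨⟨(D, ω'), h1, h2⟩, h3, h5⟩
  choose nx h1 h2 using hstep
  let st : ℕ → St := fun n => nx^[n] ⟨(C, ω), h, hn⟩
  have h3 : ∀ n, st (n + 1) = nx (st n) := fun n => Function.iterate_succ_apply' _ _ _
  have h5 : Antitone fun n => (st n).1.1 :=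
    antitone_nat_of_succ_le fun n => by simpa only [h3] using h1 (st n)
  have h6 : StrictMono fun n => Z.idx (st n).1.2 :=
    strictMono_nat_of_lt_succ fun n => by simpa only [h3] using h2 (st n)
  have hne : (⨅ n, Filter.cofinite ⊓ Filter.principal (st n).1.1).NeBot := by
    refine Filter.iInf_neBot_of_directed' (Antitone.directed_ge fun m n hmn =>
      inf_le_inf_left _ (Filter.principal_mono.mpr (h5 hmn))) fun n => ?_
    have := Z.ne (st n).1.2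
    exact Filter.neBot_of_le (f := Z.F (st n).1.2) (le_inf
      (Filter.le_cofinite_iff_compl_singleton_mem.mpr (Z.cof _))
      (Filter.le_principal_iff.mpr (st n).2.1.2.1))
  have hle := Ultrafilter.of_le (⨅ n, Filter.cofinite ⊓ Filter.principal (st n).1.1)
  obtain ⟨ω', h7⟩ := Z.cpt _ (hle.trans ((iInf_le _ 0).trans inf_le_left))
  have h8 : ∀ n, Z.idx (st n).1.2 ≤ Z.idx ω' := fun n => (st n).2.1.2.2.1 ω'
    ((Z.dec ω' _ (st n).2.1.1).resolve_right fun h9 => Ultrafilter.compl_mem_iff_notMem.mp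
      (h7 _ (by rw [cut_compl]; exact (st n).2.1.1) h9)
      ((hle.trans ((iInf_le _ n).trans inf_le_right)) (Filter.mem_principal_self _)))
  have h9 := h6.le_apply (x := Z.idx ω' + 1)
  have := h8 (Z.idx ω' + 1)
  omega

include Z in
theorem spine_univ [Infinite V] : ∃ T, G.Spine Set.univ T := by
  obtain ⟨ω0, -⟩ := Z.cpt (Filter.hyperfilter V) Filter.hyperfilter_le_cofinite
  have hex : ∃ n, ∃ ω, Z.idx ω = n := ⟨_, ω0, rfl⟩
  obtain ⟨ω, h⟩ := Nat.find_spec hex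
  exact Z.spine_of_reg h4 (ω := ω) ⟨by simp [cut], Filter.univ_mem,
    fun ω' _ => h ▸ Nat.find_min' hex ⟨ω', rfl⟩, fun D _ _ _ => by simp [cut]⟩

end EndSys

lemma parity_finite (G : MG V E) {N : Set E}
    (hN : ∀ U, (G.cut U).Finite → ∀ a b, a ∈ U → b ∉ U → ∃ e ∈ G.cut U, e ∈ N)
    (𝒰 : Finset {U : Set V // (G.cut U).Finite}) (T : Set E) :
    ∃ j : E → ZMod 2, {e | j e ≠ 0} ⊆ N ∧ ∀ U ∈ 𝒰,
      ∑ e ∈ U.2.toFinset, j e = ∑ e ∈ U.2.toFinset, ind T e := by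
  let Φ : (E → ZMod 2) →ₗ[ZMod 2] (𝒰 → ZMod 2) := LinearMap.pi fun U =>
    ∑ e ∈ U.1.2.toFinset, LinearMap.proj e
  have hΦ : ∀ j U, Φ j U = ∑ e ∈ U.1.2.toFinset, j e := fun j U => by
    simp [Φ, LinearMap.sum_apply]
  let P : Submodule (ZMod 2) (E → ZMod 2) :=
    { carrier := {j | ∀ e, e ∉ N → j e = 0}
      add_mem' := fun ha hb e he => by simp [ha e he, hb e he]
      zero_mem' := fun _ _ => rfl
      smul_mem' := fun c x hx e he => by simp [hx e he] }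
  suffices H : Φ (ind T) ∈ P.map Φ by
    obtain ⟨j, h1, h2⟩ := H
    refine ⟨j, fun e he => by_contra fun h => he (h1 e h), fun U hU => ?_⟩
    rw [← hΦ j ⟨U, hU⟩, ← hΦ _ ⟨U, hU⟩, h2]
  rw [← Subspace.forall_mem_dualAnnihilator_apply_eq_zero_iff]
  intro φ hφ
  rw [Submodule.mem_dualAnnihilator] at hφ
  let c : 𝒰 → ZMod 2 := fun U => φ (Pi.single U 1)
  let f : V → ZMod 2 := fun v => ∑ U : 𝒰, c U * ind U.1.1 v
  let F : Finset E := Finset.univ.biUnion fun U : 𝒰 => U.1.2.toFinset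
  have h0 : ∀ (U : Set V) e, ind U (G.s e) + ind U (G.t e) = ind (G.cut U) e := fun U e => by
    by_cases h2 : G.s e ∈ U <;> by_cases h3 : G.t e ∈ U <;> simp [ind, cut, h2, h3, z2_add_self]
  have h1 : ∀ e, f (G.s e) + f (G.t e) = ∑ U : 𝒰, c U * ind (G.cut U.1.1) e := fun e => by
    simp only [f, ← Finset.sum_add_distrib, ← mul_add, h0]
  have h2 : ∀ j, φ (Φ j) = ∑ e ∈ F, j e * (f (G.s e) + f (G.t e)) := fun j => by
    rw [LinearMap.pi_apply_eq_sum_univ]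
    simp only [h1, Finset.mul_sum]
    rw [Finset.sum_comm]
    refine Finset.sum_congr rfl fun U _ => ?_
    have h3 : φ (fun j => if U = j then 1 else 0) = c U := by
      congr 1
      funext j
      simp [Pi.single_apply, eq_comm]
    rw [h3, hΦ, smul_eq_mul, Finset.sum_mul]
    refine Finset.sum_congr_of_eq_on_inter ?_ ?_ ?_
    · exact fun e he he' => absurd (Finset.mem_biUnion.mpr ⟨U, Finset.mem_univ _, he⟩) he'
    · intro e _ he'
      rw [Set.Finite.mem_toFinset] at he'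
      simp [ind, he']
    · intro e he _
      rw [Set.Finite.mem_toFinset] at he
      simp [ind, he]
  have h3 : ∀ e, e ∉ F → f (G.s e) + f (G.t e) = 0 := fun e he => by
    rw [h1]
    refine Finset.sum_eq_zero fun U _ => ?_
    have : e ∉ G.cut U.1.1 := fun h =>
      he (Finset.mem_biUnion.mpr ⟨U, Finset.mem_univ _, U.1.2.mem_toFinset.mpr h⟩)
    simp [ind, this]
  have h5 : ∀ e ∈ N, f (G.s e) + f (G.t e) = 0 := fun e he => by
    by_cases h : e ∈ F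
    · have h6 := hφ _ ⟨ind {e}, fun e' he' => by
        have : e' ≠ e := fun h => he' (h ▸ he)
        simp [ind, this], rfl⟩
      rw [h2, Finset.sum_eq_single e (fun e' _ h => by simp [ind, h]) (fun h' => absurd h h')] at h6
      simpa [ind] using h6
    · exact h3 e h
  have h6 : ∀ e, e ∈ G.cut {v | f v = 0} ↔ f (G.s e) + f (G.t e) ≠ 0 := fun e => by
    simp only [cut, Set.mem_ofPred_eq]
    generalize f (G.s e) = x
    generalize f (G.t e) = y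
    decide +revert
  rw [h2]
  refine Finset.sum_eq_zero fun e _ => ?_
  by_cases h : f (G.s e) + f (G.t e) = 0
  · rw [h, mul_zero]
  · exfalso
    have h7 : (G.cut {v | f v = 0}).Finite := F.finite_toSet.subset fun e he => by
      by_contra h
      exact (h6 e).mp he (h3 e h)
    have h8 := (h6 e).mpr h
    by_cases h9 : f (G.s e) = 0
    · obtain ⟨e', h10, h11⟩ := hN _ h7 (G.s e) (G.t e) h9 fun h => h8 ⟨fun _ => h, fun _ => h9⟩
      exact (h6 e').mp h10 (h5 e' h11)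
    · obtain ⟨e', h10, h11⟩ := hN _ h7 (G.t e) (G.s e)
        (by_contra fun h => h8 ⟨fun h' => absurd h' h9, fun h' => absurd h' h⟩) h9
      exact (h6 e').mp h10 (h5 e' h11)

theorem Spine.even {G : MG V E} {T : Set E} (h : G.Spine Set.univ T) :
    ∃ H : Set E, (∀ a b, G.Conn H a b) ∧ (∀ U, (H ∩ G.cut U).Finite → (G.cut U).Finite) ∧
      G.EC H := by
  have hin : G.In Set.univ = Set.univ := Set.eq_univ_of_forall fun _ => ⟨trivial, trivial⟩
  obtain ⟨-, h1, h2, h3⟩ := h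
  simp only [hin, Set.univ_inter] at h2 h3
  choose j hj hj' using fun 𝒰 => G.parity_finite (N := Tᶜ)
    (fun U hU a b ha hb => h3 U hU a trivial b trivial ha hb) 𝒰 T
  obtain ⟨j', h5⟩ := exists_limit (Filter.atTop : Filter (Finset {U : Set V // (G.cut U).Finite})) j
  have h6 : Disjoint T {e | j' e ≠ 0} := Set.disjoint_left.mpr fun e he he' => by
    obtain ⟨i, -, h7⟩ := h5 {e} (Set.finite_singleton e) (fun _ => True) (by simp)
    exact hj i (show j i e ≠ 0 from h7 e rfl ▸ he') he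
  have h7 : ∀ U, ((T ∪ {e | j' e ≠ 0}) ∩ G.cut U).Finite → (G.cut U).Finite := fun U hU =>
    h2 U (hU.subset (Set.inter_subset_inter_left _ Set.subset_union_left))
  refine ⟨T ∪ {e | j' e ≠ 0}, fun a b => (h1 a trivial b trivial).mono Set.subset_union_left, h7,
    fun U hU => ?_⟩
  have h8 := h7 U hU
  obtain ⟨i, h9, h10⟩ := h5 _ h8 (fun i => {⟨U, h8⟩} ≤ i) (Filter.eventually_ge_atTop _)
  have h11 := hj' i ⟨U, h8⟩ (h9 (Finset.mem_singleton_self _))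
  rw [← ZMod.natCast_eq_zero_iff_even, G.ncard_cut_cast h8.toFinset U (fun e he => by simpa using he.2),
    ind_union h6, ind_support, ← z2_add_self (∑ e ∈ h8.toFinset, ind T e)]
  nth_rewrite 2 [← h11]
  rw [← Finset.sum_add_distrib]
  refine Finset.sum_congr rfl fun e he => ?_
  rw [Set.Finite.mem_toFinset] at he
  have h12 : ind U (G.s e) + ind U (G.t e) = 1 := by
    by_cases h2 : G.s e ∈ U <;> by_cases h3 : G.t e ∈ U <;> simp_all [ind, cut]
  rw [h12, mul_one, Pi.add_apply, h10 e he]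

end MG

end Pool.Agent.MP_7f38c2_co.H10
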