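import Pool.Agent.MP_7f38c2_co.H10.Simple

/-! Finite closed trails inside edge sets all of whose finite cuts are even. -/

namespace Pool.Agent.MP_7f38c2_co.H10

open Classical

namespace MG

variable {V E : Type*}

lemma ncard_cut_cast (G : MG V E) {N : Set E} (F : Finset E) (U : Set V)
    (hF : N ∩ G.cut U ⊆ F) : ((N ∩ G.cut U).ncard : ZMod 2)
      = ∑ e ∈ F, ind N e * (ind U (G.s e) + ind U (G.t e)) := by
  have h1 : N ∩ G.cut U = ↑(F.filter fun e => e ∈ N ∩ G.cut U) := by
    ext e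
    simp only [Finset.coe_filter, Set.mem_ofPred_eq]
    exact ⟨fun h => ⟨hF h, h⟩, fun h => h.2⟩
  rw [h1, Set.ncard_coe_finset, Finset.card_filter, Nat.cast_sum]
  refine Finset.sum_congr rfl fun e _ => ?_
  by_cases h1 : e ∈ N <;> by_cases h2 : G.s e ∈ U <;> by_cases h3 : G.t e ∈ U <;>
    simp [ind, cut, h1, h2, h3, z2_add_self]

lemma Ev.even_cut {G : MG V E} {N : Set E} (hN : N.Finite) (hev : G.Ev N) (U : Set V) :
    Even (N ∩ G.cut U).ncard := by
  rw [← ZMod.natCast_eq_zero_iff_even, G.ncard_cut_cast hN.toFinset U (fun e he => by simpa using he.1)]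
  obtain ⟨A, hA⟩ := G.exists_ends hN
  have h : ∀ v, G.bd (ind N) v = ∑ e ∈ hN.toFinset, ind N e * G.mu e v :=
    G.bd_eq_sum (by simp [ind])
  have h2 : ∑ v ∈ A, ind U v * G.bd (ind N) v = 0 :=
    Finset.sum_eq_zero fun v _ => by rw [hev v, mul_zero]
  rw [← h2]
  simp only [h, Finset.mul_sum]
  rw [Finset.sum_comm]
  refine Finset.sum_congr rfl fun e he => ?_
  have h1 := hA (hN.mem_toFinset.mp he)
  simp only [mu, dl, mul_add, Finset.sum_add_distrib, mul_ite, mul_one, mul_zero,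
    Finset.sum_ite_eq, Finset.mem_coe.mp h1.1, Finset.mem_coe.mp h1.2, if_true]
  ring

/-- all finite cuts of `N` are even -/
def EC (G : MG V E) (N : Set E) : Prop :=
  ∀ U, (N ∩ G.cut U).Finite → Even (N ∩ G.cut U).ncard

lemma EC.sdiff {G : MG V E} {R N : Set E} (h : G.EC R) (hN : N.Finite) (hev : G.Ev N)
    (hNR : N ⊆ R) : G.EC (R \ N) := by
  intro U hU
  have h1 : R ∩ G.cut U = ((R \ N) ∩ G.cut U) ∪ (N ∩ G.cut U) := by
    ext e
    have := @hNR e
    simp only [Set.mem_inter_iff, Set.mem_union, Set.mem_sdiff]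
    tauto
  have h2 := h U (h1 ▸ hU.union (hN.inter_of_left _))
  rw [h1, Set.ncard_union_eq (Set.disjoint_left.mpr fun e he he' => he.1.2 he'.1) hU
    (hN.inter_of_left _)] at h2
  exact (Nat.even_add.mp h2).mpr (hev.even_cut hN U)

lemma EC.conn {G : MG V E} {R : Set E} (h : G.EC R) {f : E} (hf : f ∈ R) :
    G.Conn (R \ {f}) (G.s f) (G.t f) := by
  by_contra hc
  have h1 : R ∩ G.cut {u | G.Conn (R \ {f}) (G.s f) u} = {f} := by
    ext e
    refine ⟨fun he => ?_, ?_⟩
    · by_contra h2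
      exact not_mem_cut_conn (N := R \ {f}) ⟨he.1, h2⟩ he.2
    · rintro rfl
      exact ⟨hf, fun h => hc (h.mp (Conn.refl _ _ _))⟩
  have h2 := h _ (h1 ▸ Set.finite_singleton f)
  rw [h1, Set.ncard_singleton] at h2
  exact Nat.not_even_one h2

lemma EC.closure {G : MG V E} {R : Set E} (h : G.EC R) {F : Set E} (hF : F.Finite) (hFR : F ⊆ R) :
    ∃ N : Set E, N.Finite ∧ F ⊆ N ∧ N ⊆ R ∧ G.Ev N := by
  induction F, hF using Set.Finite.induction_on with
  | empty => exact ⟨∅, Set.finite_empty, subset_rfl, Set.empty_subset _, fun v => by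
      rw [← G.bd_zero v]
      exact G.bd_congr fun e _ => by simp [ind]⟩
  | @insert f F _ _ ih =>
    obtain ⟨N, h1, h2, h3, h4⟩ := ih ((Set.subset_insert _ _).trans hFR)
    by_cases hf : f ∈ N
    · exact ⟨N, h1, Set.insert_subset hf h2, h3, h4⟩
    have hfR := hFR (Set.mem_insert _ _)
    obtain ⟨j, h5, h6, h7⟩ := ((h.sdiff h1 h4 h3).conn (f := f) ⟨hfR, hf⟩).chain
    refine ⟨N ∪ ({f} ∪ {e | j e ≠ 0}), h1.union ((Set.finite_singleton f).union h6),
      Set.insert_subset (Or.inr (Or.inl rfl)) (h2.trans Set.subset_union_left),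
      Set.union_subset h3 (Set.union_subset (by simpa using hfR) fun e he => (h5 he).1.1),
      fun v => ?_⟩
    rw [ind_union, ind_union, bd_add, bd_add, h4 v, bd_single, ind_support, h7, zero_add]
    · exact z2_add_self _
    · exact Set.disjoint_left.mpr fun e he he' => (h5 he').2 he
    · refine Set.disjoint_left.mpr ?_
      rintro e he (rfl | he')
      · exact hf he
      · exact (h5 he').1.2 he

lemma EC.trail {G : MG V E} {R : Set E} (h : G.EC R) (b : V) {F : Set E} (hF : F.Finite)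
    (hFR : F ⊆ R) (hc : ∀ f ∈ F, G.Conn R b (G.s f)) :
    ∃ W, G.Wk b W b ∧ W.Nodup ∧ (∀ e ∈ W, e ∈ R ∧ G.Conn R b (G.s e)) ∧ ∀ f ∈ F, f ∈ W := by
  obtain ⟨Y, hY⟩ := support_all (hF.image G.s).toFinset (N := R) (x := b) (by
    intro a ha
    obtain ⟨f, hf, rfl⟩ := (hF.image G.s).mem_toFinset.mp ha
    exact hc f hf)
  obtain ⟨N, h1, h2, h3, h4⟩ := h.closure (F := F ∪ (R ∩ G.Inc Y))
    (hF.union ((G.inc_finite Y.finite_toSet).inter_of_right _))
    (Set.union_subset hFR Set.inter_subset_left)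
  obtain ⟨A, B, h5, h6, h7, h8⟩ := G.finite_euler
    (N := {e | e ∈ N ∧ G.s e ∈ {u | G.Conn N b u}}) (h1.subset fun e he => he.1)
    (h4.restrict fun e he => not_mem_cut_conn he) (v := b) (v' := b)
    (fun e he => Conn.restrict he.2) (Conn.refl _ _ _)
  refine ⟨A ++ B, h5.append h6, h7, fun e he => ?_, fun f hf => (h8 f).mpr ⟨h2 (Or.inl hf), ?_⟩⟩
  · have := (h8 e).mp he
    exact ⟨h3 this.1, Conn.mono h3 this.2⟩
  · exact (hY _ ((hF.image G.s).mem_toFinset.mpr ⟨f, hf, rfl⟩)).mono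
      (Set.subset_union_right.trans h2)

def Tch (G : MG V E) (e : E) (u : V) : Prop := G.s e = u ∨ G.t e = u

lemma Joins.tch {G : MG V E} {e : E} {a b : V} (h : G.Joins e a b) : G.Tch e a :=
  h.imp And.left And.right

lemma Tch.eq_or {G : MG V E} {e : E} {a b u : V} (h' : G.Tch e u) (h : G.Joins e a b) :
    u = a ∨ u = b := by
  rcases h with ⟨rfl, rfl⟩ | ⟨rfl, rfl⟩ <;> rcases h' with rfl | rfl <;> simp

lemma Tch.conn {G : MG V E} {N : Set E} {e : E} (he : e ∈ N) {u : V} (h : G.Tch e u) :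
    G.Conn N (G.s e) u := by
  rcases h with rfl | rfl
  · exact Conn.refl _ _ _
  · exact Conn.edge he (Or.inl ⟨rfl, rfl⟩)

lemma Wk.tch_cons {G : MG V E} {a c : V} {e : E} {l : List E} (h : G.Wk a (e :: l) c) :
    G.Tch e a := by
  cases h with
  | cons h _ => exact h.tch

lemma Wk.tch_last {G : MG V E} {a c : V} {e : E} {l : List E} (h : G.Wk a (l ++ [e]) c) :
    G.Tch e c := by
  have := h.reverse
  rw [List.reverse_append] at this
  exact Wk.tch_cons this

/-- split a walk after the first edge that touches `K` -/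
lemma Wk.first {G : MG V E} {K : Set V} {a c : V} {l : List E} (h : G.Wk a l c) (ha : a ∉ K)
    (hl : ∃ g ∈ l, ∃ u ∈ K, G.Tch g u) : ∃ A g B b, l = A ++ [g] ++ B ∧ b ∈ K ∧
      G.Wk a (A ++ [g]) b ∧ G.Wk b B c ∧ ∀ w ∈ A, ∀ u ∈ K, ¬ G.Tch w u := by
  induction h with
  | nil => simp at hl
  | @cons a b c e l h h' ih =>
    by_cases hb : b ∈ K
    · exact ⟨[], e, l, b, rfl, hb, Wk.cons h (Wk.nil _), h', by simp⟩
    have he : ∀ u ∈ K, ¬ G.Tch e u := fun u hu ht => by
      rcases ht.eq_or h with rfl | rfl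
      · exact ha hu
      · exact hb hu
    obtain ⟨A, g, B, b', rfl, h1, h2, h3, h4⟩ := ih hb (by
      obtain ⟨g, hg, u, hu, ht⟩ := hl
      rcases List.mem_cons.mp hg with rfl | hg
      · exact absurd ht (he u hu)
      · exact ⟨g, hg, u, hu, ht⟩)
    refine ⟨e :: A, g, B, b', rfl, h1, Wk.cons h h2, h3, fun w hw => ?_⟩
    rcases List.mem_cons.mp hw with rfl | hw
    · exact he
    · exact h4 w hw

lemma Wk.chain {G : MG V E} {a c : V} {l : List E} (h : G.Wk a l c) : l.IsChain G.Touch := by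
  induction h with
  | nil => exact List.IsChain.nil
  | @cons a b c e l h h' ih =>
    cases l with
    | nil => exact List.IsChain.singleton _
    | cons f l => exact List.IsChain.cons_cons ⟨b, h.symm.tch, h'.tch_cons⟩ ih

end MG

section lists

variable {E : Type*} {x y z : E}

lemma bf_cons {a : E} {L : List E} :
    [x, y].Sublist (a :: L) ↔ (x = a ∧ y ∈ L) ∨ [x, y].Sublist L := by
  rw [List.sublist_cons_iff]
  simp only [List.cons.injEq]
  constructor
  · rintro (h | ⟨r, ⟨rfl, rfl⟩, h⟩)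
    · exact Or.inr h
    · exact Or.inl ⟨rfl, List.singleton_sublist.mp h⟩
  · rintro (⟨rfl, h⟩ | h)
    · exact Or.inr ⟨[y], ⟨rfl, rfl⟩, List.singleton_sublist.mpr h⟩
    · exact Or.inl h

lemma bf_append {A B : List E} : [x, y].Sublist (A ++ B) ↔
    [x, y].Sublist A ∨ [x, y].Sublist B ∨ (x ∈ A ∧ y ∈ B) := by
  induction A with
  | nil => simp
  | cons a A ih =>
    rw [List.cons_append, bf_cons, bf_cons, ih, List.mem_append, List.mem_cons]
    tauto

lemma bf_left {L : List E} (h : [x, y].Sublist L) : x ∈ L := h.subset (by simp)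

lemma bf_right {L : List E} (h : [x, y].Sublist L) : y ∈ L := h.subset (by simp)

lemma bf_total {L : List E} (hx : x ∈ L) (hy : y ∈ L) :
    [x, y].Sublist L ∨ x = y ∨ [y, x].Sublist L := by
  induction L with
  | nil => simp at hx
  | cons a L ih =>
    rw [bf_cons, bf_cons]
    rcases List.mem_cons.mp hx with rfl | hx' <;> rcases List.mem_cons.mp hy with rfl | hy'
    · simp
    · simp [hy']
    · simp [hx']
    · have := ih hx' hy'
      tauto

lemma bf_irrefl {L : List E} (hL : L.Nodup) : ¬ [x, x].Sublist L := fun h => by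
  simpa using hL.sublist h

lemma bf_trans {L : List E} (hL : L.Nodup) (h : [x, y].Sublist L) (h' : [y, z].Sublist L) :
    [x, z].Sublist L := by
  induction L with
  | nil => simp at h
  | cons a L ih =>
    obtain ⟨h1, h2⟩ := List.nodup_cons.mp hL
    rw [bf_cons] at h h' ⊢
    rcases h' with ⟨rfl, h'⟩ | h'
    · exact absurd (h.elim And.right bf_right) h1
    · exact h.imp (fun h => ⟨h.1, bf_right h'⟩) fun h => ih h2 h h'

lemma bf_split {L : List E} (h : [x, y].Sublist L) : ∃ P M Q, L = P ++ (x :: M ++ [y]) ++ Q := by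
  induction L with
  | nil => simp at h
  | cons a L ih =>
    rcases bf_cons.mp h with ⟨rfl, h'⟩ | h'
    · obtain ⟨M, Q, rfl⟩ := List.append_of_mem h'
      exact ⟨[], M, Q, by simp⟩
    · obtain ⟨P, M, Q, rfl⟩ := ih h'
      exact ⟨a :: P, M, Q, rfl⟩

lemma adj_insert {P B P1 Q : List E} (W : List E) (h : P ++ B = P1 ++ x :: y :: Q) :
    (∃ P2 Q2, P ++ (W ++ B) = P2 ++ x :: y :: Q2) ∨ (P = P1 ++ [x] ∧ B = y :: Q) := by
  rcases List.append_eq_append_iff.mp h with ⟨a, rfl, rfl⟩ | ⟨c, rfl, h'⟩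
  · exact Or.inl ⟨P ++ (W ++ a), Q, by simp⟩
  · rcases c with _ | ⟨c1, _ | ⟨c2, c⟩⟩
    · simp only [List.nil_append] at h'
      subst h'
      exact Or.inl ⟨P1 ++ W, Q, by simp⟩
    · simp only [List.cons_append, List.nil_append, List.cons.injEq] at h'
      obtain ⟨rfl, rfl⟩ := h'
      exact Or.inr ⟨rfl, rfl⟩
    · simp only [List.cons_append, List.cons.injEq] at h'
      obtain ⟨rfl, rfl, rfl⟩ := h'
      exact Or.inl ⟨P1, c ++ (W ++ B), by simp⟩

lemma not_between {P Q : List E} (hL : (P ++ x :: y :: Q).Nodup)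
    (h : [x, z].Sublist (P ++ x :: y :: Q)) : ¬ [z, y].Sublist (P ++ x :: y :: Q) := by
  intro h'
  have h1 : (P ++ [x] ++ y :: Q).Nodup := by simpa using hL
  have h2 : P ++ x :: y :: Q = P ++ [x] ++ y :: Q := by simp
  have h3 := List.nodup_append.mp h1
  have h4 := List.nodup_append.mp h3.1
  have h5 := List.nodup_cons.mp h3.2.1
  have h6 : z ∈ y :: Q := by
    rw [bf_append, bf_cons] at h
    rcases h with h | (h | h) | h
    · exact absurd rfl (h4.2.2 x (bf_left h) x (by simp))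
    · exact h.2
    · exact bf_right h
    · exact absurd rfl (h4.2.2 x h.1 x (by simp))
  rw [h2, bf_append, bf_cons] at h'
  rcases h' with h' | (h' | h') | h'
  · exact h3.2.2 z (bf_left h') z h6 rfl
  · exact h5.1 h'.2
  · exact h5.1 (bf_right h')
  · exact h3.2.2 z h'.1 z h6 rfl

end lists

end Pool.Agent.MP_7f38c2_co.H10
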